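import Mathlib
import Pool.Agent.Y359.PE.Ent

/-!
# Conditional entropies bounded by explicit conditional laws
-/

set_option autoImplicit false

namespace Pool.Agent.L5helper37.PF

open Finset Pool.Agent.Y359.PE
open scoped Classical

variable {α β γ δ : Type*}

/-- **Conditional Gibbs inequality** -/
lemma cond_gibbs [Fintype δ] (S : Finset α) (s : α → γ) (b : α → δ) (Q : γ → δ → ℝ)
    (hQ0 : ∀ w ∈ S, 0 < Q (s w) (b w)) (hQn : ∀ σ d, 0 ≤ Q σ d) (hQ1 : ∀ σ, ∑ d, Q σ d ≤ 1) :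
    ∑ w ∈ S, (Real.log (fc S s w) - Real.log (fc S (fun w => (s w, b w)) w)) ≤
      ∑ w ∈ S, -Real.log (Q (s w) (b w)) := by
  have key := gibbs S s (fun w => Q (s w) (b w) / fc S (fun w => (s w, b w)) w)
    (fun x hx => div_pos (hQ0 x hx) (fc_posR hx)) (fun x hx => by
      have e1 : ∑ y ∈ cl S s x, Q (s y) (b y) / (fc S (fun w => (s w, b w)) y : ℝ) =
          ∑ d : δ, ∑ y ∈ (cl S s x).filter (fun y => b y = d),
            Q (s x) d * (1 / (fc S (fun w => (s w, b w)) y : ℝ)) := by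
        rw [← sum_fiberwise_of_maps_to (g := b) (t := univ) (fun y _ => mem_univ _)]
        refine sum_congr rfl fun d _ => sum_congr rfl fun y hy => ?_
        rw [mem_filter, mem_cl] at hy
        rw [hy.1.2, hy.2, mul_one_div]
      rw [e1]
      refine le_trans (sum_le_sum fun d _ => ?_) (hQ1 (s x))
      rw [← mul_sum]
      have e2 := sum_inv_le S (fun w => (s w, b w)) ((cl S s x).filter fun y => b y = d) (by
        intro y hy
        exact (mem_cl.1 (mem_filter.1 hy).1).1) (by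
        intro y hy y' hy'
        rw [mem_filter, mem_cl] at hy hy'
        rw [Prod.mk.injEq]
        exact ⟨hy.1.2.trans hy'.1.2.symm, hy.2.trans hy'.2.symm⟩)
      have e3 := hQn (s x) d
      nlinarith)
  rw [sum_sub_distrib]
  have e4 : ∀ x ∈ S, -Real.log (Q (s x) (b x) / (fc S (fun w => (s w, b w)) x : ℝ)) =
      -Real.log (Q (s x) (b x)) + Real.log (fc S (fun w => (s w, b w)) x) := by
    intro x hx
    rw [Real.log_div (hQ0 x hx).ne' (fc_posR hx).ne']
    ring
  rw [sum_congr rfl e4, sum_add_distrib] at key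
  linarith

/-- a finer function has smaller classes -/
lemma fc_le_of_imp {S : Finset α} {f : α → β} {g : α → γ} {x : α}
    (h : ∀ y ∈ S, f y = f x → g y = g x) : fc S f x ≤ fc S g x := by
  refine card_le_card fun y hy => ?_
  rw [mem_cl] at hy ⊢
  exact ⟨hy.1, h y hy.1 hy.2⟩

/-- sums over cells -/
lemma sum_le_of_cells (S : Finset α) (lab : α → β) (F F' : α → ℝ)
    (h : ∀ w ∈ S, ∑ y ∈ cl S lab w, F y ≤ ∑ y ∈ cl S lab w, F' y) :
    ∑ w ∈ S, F w ≤ ∑ w ∈ S, F' w := by
  rw [← avg_cl S lab F, ← avg_cl S lab F']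
  exact sum_le_sum fun w hw => div_le_div_of_nonneg_right (h w hw) (by positivity)

/-- the total loss -/
noncomputable def T (S : Finset α) (s : α → γ) : ℝ := ∑ w ∈ S, Real.log (fc S s w)

lemma T_nonneg (S : Finset α) (s : α → γ) : 0 ≤ T S s :=
  sum_nonneg fun _ _ => Real.log_natCast_nonneg _

/-- the loss of a set in terms of the losses of the cells -/
lemma T_cells (S : Finset α) (s : α → γ) (lab : α → β) (c : α → ℝ) (F : α → ℝ)
    (hc : ∑ w ∈ S, (Real.log (fc S s w) - Real.log (fc S (fun w => (s w, lab w)) w)) ≤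
      ∑ w ∈ S, c w)
    (hF : ∀ w ∈ S, T (cl S lab w) s ≤ ∑ y ∈ cl S lab w, F y) :
    T S s ≤ ∑ w ∈ S, (c w + F w) := by
  have h1 : ∑ w ∈ S, Real.log (fc S (fun w => (s w, lab w)) w) ≤ ∑ w ∈ S, F w := by
    refine sum_le_of_cells S lab _ _ fun w hw => ?_
    refine le_trans (le_of_eq ?_) (hF w hw)
    unfold T
    refine sum_congr rfl fun y hy => ?_
    congr 2
    unfold fc
    congr 1
    ext z
    rw [mem_cl, mem_cl, mem_cl, Prod.mk.injEq]
    rw [mem_cl] at hy
    constructor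
    · rintro ⟨a1, a2, a3⟩
      exact ⟨⟨a1, a3.trans hy.2⟩, a2⟩
    · rintro ⟨⟨a1, a3⟩, a2⟩
      exact ⟨a1, a2, a3.trans hy.2.symm⟩
  rw [sum_add_distrib]
  rw [sum_sub_distrib] at hc
  unfold T
  linarith

lemma log_inv_le {q : ℝ} (h0 : 0 ≤ q) (h1 : q ≤ 1 / 2) : -Real.log (1 - q) ≤ 2 * q := by
  have h2 : 0 < 1 - q := by linarith
  have h3 := Real.log_le_sub_one_of_pos (inv_pos.2 h2)
  rw [Real.log_inv] at h3
  refine h3.trans ?_
  rw [sub_le_iff_le_add, inv_le_iff_one_le_mul₀ h2]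
  nlinarith

lemma mul_log_inv_le {q : ℝ} (h0 : 0 ≤ q) : q * -Real.log q ≤ 1 := by
  rcases h0.eq_or_lt with h | h
  · rw [← h]
    simp
  · have h3 := Real.log_le_sub_one_of_pos (inv_pos.2 h)
    rw [Real.log_inv] at h3
    have h4 := mul_le_mul_of_nonneg_left h3 h0
    have h5 : q * (q⁻¹ - 1) = 1 - q := by
      field_simp
    linarith

end Pool.Agent.L5helper37.PF
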