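import Mathlib
import Pool.Agent.L5helper37.PF.Cond

/-!
# One step of revealing a valuation
-/

set_option autoImplicit false

namespace Pool.Agent.L5helper37.PF

open Finset Pool.Agent.Y359.PE
open scoped Classical

variable {α β γ δ : Type*}

lemma sum_ind (A : Finset α) (B : Finset β) (P : α → Prop) (R : β → Prop) (c : ℝ)
    [DecidablePred P] [DecidablePred R] [∀ x : α × β, Decidable (P x.1 ∧ R x.2)] :
    ∑ x ∈ A ×ˢ B, (if P x.1 ∧ R x.2 then c else 0) =
      ((A.filter P).card : ℝ) * (B.filter R).card * c := by
  rw [← sum_filter]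
  have : (A ×ˢ B).filter (fun x => P x.1 ∧ R x.2) = A.filter P ×ˢ B.filter R := by
    ext x
    simp only [mem_filter, mem_product]
    tauto
  rw [this, sum_const, card_product, nsmul_eq_mul]
  push_cast
  ring

lemma sum_fst (A : Finset α) (B : Finset β) (F : α → ℝ) :
    ∑ x ∈ A ×ˢ B, F x.1 = B.card * ∑ a ∈ A, F a := by
  rw [sum_product, mul_sum]
  refine sum_congr rfl fun a _ => ?_
  simp

lemma sum_snd (A : Finset α) (B : Finset β) (F : β → ℝ) :
    ∑ x ∈ A ×ˢ B, F x.2 = A.card * ∑ b ∈ B, F b := by
  rw [sum_product]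
  simp

/-- the classes other than a large one -/
lemma card_ne (B : Finset β) (g : β → δ) (b₀ : β) :
    ((B.filter fun b => g b ≠ g b₀).card : ℝ) = B.card - fc B g b₀ := by
  have h1 := card_filter_add_card_filter_not (s := B) (fun b => g b = g b₀)
  have h2 : fc B g b₀ = (B.filter fun b => g b = g b₀).card := rfl
  rw [h2, ← h1]
  push_cast
  ring

lemma fc_le_ne (B : Finset β) (g : β → δ) (b₀ b : β) (h : g b ≠ g b₀) :
    fc B g b ≤ (B.filter fun b => g b ≠ g b₀).card := by
  refine card_le_card fun y hy => ?_
  rw [mem_cl] at hy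
  rw [mem_filter]
  exact ⟨hy.1, by rw [hy.2]; exact h⟩

/-- the threshold -/
noncomputable def c1 (κ : ℝ) : ℝ := Real.exp (-(3 / κ))

lemma c1_pos (κ : ℝ) : 0 < c1 κ := Real.exp_pos _

lemma c1_le {κ : ℝ} (h0 : 0 < κ) (h1 : κ ≤ 1) : c1 κ ≤ 1 / 4 := by
  unfold c1
  have h2 : (3 : ℝ) ≤ 3 / κ := by
    rw [le_div_iff₀ h0]
    nlinarith
  rw [Real.exp_neg]
  rw [inv_le_comm₀ (Real.exp_pos _) (by norm_num)]
  have h3 := Real.add_one_le_exp (3 / κ)
  have : ((1 : ℝ) / 4)⁻¹ = 4 := by norm_num
  rw [this]
  linarith

/-- the constant -/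
noncomputable def CR (κ : ℝ) : ℝ := 2 - Real.log (κ * c1 κ / 2)

lemma log_two_le : Real.log 2 ≤ 0.7 := by
  have := Real.log_two_lt_d9
  linarith

/-- **One step of revealing a valuation.** -/
lemma stepR {κ : ℝ} (h0 : 0 < κ) (h1 : κ ≤ 1) (A : Finset α) (B : Finset β) (w : α → Prop)
    (g : β → δ) (s : α × β → γ)
    (hs1 : ∀ x ∈ A ×ˢ B, ∀ y ∈ A ×ˢ B, s x = s y → ¬ w x.1 → ¬ w y.1 → g x.2 = g y.2)
    (hs2 : ∀ x ∈ A ×ˢ B, ∀ y ∈ A ×ˢ B, s x = s y → g x.2 = g y.2 → ¬ w x.1 → ¬ w y.1) :
    ∑ x ∈ A ×ˢ B, (Real.log (fc (A ×ˢ B) s x) - Real.log (fc (A ×ˢ B)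
      (fun x => (s x, if w x.1 then (none : Option δ) else some (g x.2))) x)) ≤
      ∑ x ∈ A ×ˢ B, (if w x.1 then CR κ else κ * (Real.log B.card - Real.log (fc B g x.2))) := by
  set S := A ×ˢ B with hS
  have hc1 := c1_pos κ
  have hc14 := c1_le h0 h1
  have hl2 := log_two_le
  have hl20 : 0 < Real.log 2 := Real.log_pos (by norm_num)
  set θ : ℝ := κ * c1 κ / 2 with hθ
  have hθ0 : 0 < θ := by positivity
  have hθ1 : θ ≤ 1 / 8 := by rw [hθ]; nlinarith
  -- pass to the bit
  have hbit : ∀ x ∈ S, Real.log (fc S s x) - Real.log (fc S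
      (fun x => (s x, if w x.1 then (none : Option δ) else some (g x.2))) x) ≤
      Real.log (fc S s x) - Real.log (fc S (fun x => (s x, decide (w x.1))) x) := by
    intro x hx
    have h2 : fc S (fun x => (s x, decide (w x.1))) x ≤ fc S
        (fun x => (s x, if w x.1 then (none : Option δ) else some (g x.2))) x := by
      refine fc_le_of_imp fun y hy hyx => ?_
      rw [Prod.mk.injEq, decide_eq_decide] at hyx
      rw [Prod.mk.injEq]
      refine ⟨hyx.1, ?_⟩
      by_cases hw : w x.1
      · rw [if_pos hw, if_pos (hyx.2.2 hw)]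
      · have hw' : ¬ w y.1 := fun h => hw (hyx.2.1 h)
        rw [if_neg hw, if_neg hw', hs1 y hy x hx hyx.1 hw' hw]
    have h3 : (0 : ℝ) < fc S (fun x => (s x, decide (w x.1))) x := fc_posR hx
    have h4 : Real.log (fc S (fun x => (s x, decide (w x.1))) x) ≤ Real.log (fc S
        (fun x => (s x, if w x.1 then (none : Option δ) else some (g x.2))) x) :=
      Real.log_le_log h3 (by exact_mod_cast h2)
    linarith
  refine (sum_le_sum hbit).trans ?_
  have hBpos : ∀ x ∈ S, (0 : ℝ) < B.card := by
    intro x hx
    exact_mod_cast card_pos.2 ⟨x.2, (mem_product.1 hx).2⟩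
  by_cases hcase : ∀ b ∈ B, (fc B g b : ℝ) < (1 - c1 κ) * B.card
  · -- no large class
    refine (cond_gibbs S s (fun x => decide (w x.1)) (fun _ d => if d then θ else 1 - θ)
      (fun x _ => ?_) (fun _ d => ?_) (fun _ => ?_)).trans (sum_le_sum fun x hx => ?_)
    · split_ifs <;> linarith
    · split_ifs <;> linarith
    · simp
    · by_cases hw : w x.1
      · simp only [hw, decide_true, if_true]
        unfold CR
        linarith
      · simp only [hw, decide_false, if_false, Bool.false_eq_true]
        have h2 := log_inv_le hθ0.le (by linarith : θ ≤ 1 / 2)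
        refine h2.trans ?_
        have hxB := (mem_product.1 hx).2
        have h3 := fc_posR (f := g) hxB
        have h4 := Real.log_le_log h3 (hcase x.2 hxB).le
        rw [Real.log_mul (by linarith) (hBpos x hx).ne'] at h4
        have h5 := Real.log_le_sub_one_of_pos (show 0 < 1 - c1 κ by linarith)
        have h6 : c1 κ ≤ Real.log B.card - Real.log (fc B g x.2) := by linarith
        have h7 := mul_le_mul_of_nonneg_left h6 h0.le
        rw [hθ]
        linarith
  · -- a large class
    push Not at hcase
    obtain ⟨b₀, hb₀, hb₀'⟩ := hcase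
    have hB0 : (0 : ℝ) < B.card := by exact_mod_cast card_pos.2 ⟨b₀, hb₀⟩
    set Y := B.filter fun b => g b ≠ g b₀ with hY
    have hYc : (Y.card : ℝ) ≤ c1 κ * B.card := by
      rw [hY, card_ne]
      linarith
    set q : ℝ := Y.card / B.card with hq
    have hqc : q * B.card = Y.card := by rw [hq]; field_simp
    have hq0 : 0 ≤ q := by positivity
    have hq1 : q ≤ c1 κ := by
      rw [hq, div_le_iff₀ hB0]
      exact hYc
    have hqpos : ∀ x ∈ S, g x.2 ≠ g b₀ → 0 < q := by
      intro x hx h
      have : (0 : ℝ) < Y.card := by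
        exact_mod_cast card_pos.2 ⟨x.2, mem_filter.2 ⟨(mem_product.1 hx).2, h⟩⟩
      positivity
    let Z : γ → Prop := fun σ => ∃ x ∈ S, ¬ w x.1 ∧ g x.2 = g b₀ ∧ s x = σ
    have hZ1 : ∀ x ∈ S, w x.1 → Z (s x) → g x.2 ≠ g b₀ := by
      rintro x hx hw ⟨y, hy, hwy, hgy, hsy⟩ hg
      exact hs2 y hy x hx hsy (hgy.trans hg.symm) hwy hw
    have hZ2 : ∀ x ∈ S, ¬ w x.1 → g x.2 ≠ g b₀ → ¬ Z (s x) := by
      rintro x hx hw hg ⟨y, hy, hwy, hgy, hsy⟩
      exact hg ((hs1 x hx y hy hsy.symm hw hwy).trans hgy)
    refine (cond_gibbs S s (fun x => decide (w x.1))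
      (fun σ d => if Z σ then (if d then q else 1 - q) else 1 / 2)
      (fun x hx => ?_) (fun σ d => ?_) (fun σ => ?_)).trans ?_
    · by_cases hz : Z (s x)
      · rw [if_pos hz]
        by_cases hw : w x.1
        · simp only [hw, decide_true, if_true]
          exact hqpos x hx (hZ1 x hx hw hz)
        · simp only [hw, decide_false, if_false, Bool.false_eq_true]
          linarith
      · rw [if_neg hz]
        norm_num
    · split_ifs <;> linarith
    · by_cases hz : Z σ
      · simp [hz]
      · simp only [hz, if_false, Fintype.sum_bool]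
        norm_num
    · have hpt : ∀ x ∈ S, -Real.log (if Z (s x) then (if decide (w x.1) then q else 1 - q)
          else 1 / 2) ≤ (if ¬ w x.1 ∧ True then 2 * q else 0) +
          (if ¬ w x.1 ∧ g x.2 ≠ g b₀ then Real.log 2 else 0) +
          (if w x.1 ∧ g x.2 ≠ g b₀ then -Real.log q else 0) +
          (if w x.1 ∧ True then Real.log 2 else 0) := by
        intro x hx
        have hlh : -Real.log (1 / 2) = Real.log 2 := by
          rw [one_div, Real.log_inv]
          ring
        have hlq : 0 ≤ -Real.log q := by
          have := Real.log_nonpos hq0 (by linarith : q ≤ 1)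
          linarith
        by_cases hw : w x.1
        · by_cases hz : Z (s x)
          · have := hZ1 x hx hw hz
            simp [hw, hz, this]
            linarith
          · rw [if_neg hz, hlh]
            by_cases hg : g x.2 = g b₀
            · simp [hw, hg]
            · simp [hw, hg]
              linarith
        · by_cases hz : Z (s x)
          · have hg : g x.2 = g b₀ := by
              by_contra hg
              exact hZ2 x hx hw hg hz
            simp only [hw, hz, hg, decide_false, if_true, if_false, Bool.false_eq_true, not_false_eq_true,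
              and_true, ne_eq, not_true_eq_false, and_false, add_zero]
            exact log_inv_le hq0 (by linarith)
          · rw [if_neg hz, hlh]
            by_cases hg : g x.2 = g b₀
            · exfalso
              exact hz ⟨x, hx, hw, hg, rfl⟩
            · simp [hw, hg]
              exact hq0
      refine (sum_le_sum hpt).trans ?_
      rw [sum_add_distrib, sum_add_distrib, sum_add_distrib, hS,
        sum_ind A B (fun a => ¬ w a) (fun _ => True), sum_ind A B (fun a => ¬ w a)
        (fun b => g b ≠ g b₀), sum_ind A B w (fun b => g b ≠ g b₀), sum_ind A B w (fun _ => True),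
        filter_true]
      change ((A.filter fun a => ¬ w a).card : ℝ) * B.card * (2 * q) +
        ((A.filter fun a => ¬ w a).card : ℝ) * Y.card * Real.log 2 +
        ((A.filter w).card : ℝ) * Y.card * -Real.log q +
        ((A.filter w).card : ℝ) * B.card * Real.log 2 ≤ _
      set a0 : ℝ := ((A.filter fun a => ¬ w a).card : ℝ) with ha0
      set a1 : ℝ := ((A.filter w).card : ℝ) with ha1
      have ha00 : 0 ≤ a0 := Nat.cast_nonneg _
      have ha10 : 0 ≤ a1 := Nat.cast_nonneg _
      -- the budget
      have hbud : a1 * B.card * CR κ + a0 * Y.card * 3 ≤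
          ∑ x ∈ S, (if w x.1 then CR κ else κ * (Real.log B.card - Real.log (fc B g x.2))) := by
        have hpt2 : ∀ x ∈ S, (if w x.1 ∧ True then CR κ else 0) +
            (if ¬ w x.1 ∧ g x.2 ≠ g b₀ then 3 else 0) ≤
            (if w x.1 then CR κ else κ * (Real.log B.card - Real.log (fc B g x.2))) := by
          intro x hx
          have hxB := (mem_product.1 hx).2
          have h3 := fc_posR (f := g) hxB
          have h4 : (fc B g x.2 : ℝ) ≤ B.card := by exact_mod_cast fc_le
          have h5 := Real.log_le_log h3 h4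
          by_cases hw : w x.1
          · simp [hw]
          · by_cases hg : g x.2 = g b₀
            · have h6 : 0 ≤ κ * (Real.log B.card - Real.log (fc B g x.2)) :=
                mul_nonneg h0.le (by linarith)
              rw [if_neg (fun h => hw h.1), if_neg (fun h => h.2 hg), if_neg hw]
              linarith
            · simp only [hw, hg, and_true, if_false, not_false_eq_true, ne_eq,
                and_self, if_true, zero_add]
              have h6 : (fc B g x.2 : ℝ) ≤ c1 κ * B.card := by
                refine le_trans ?_ hYc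
                exact_mod_cast fc_le_ne B g b₀ x.2 hg
              have h7 := Real.log_le_log h3 h6
              rw [Real.log_mul hc1.ne' hB0.ne'] at h7
              have h8 : Real.log (c1 κ) = -(3 / κ) := by unfold c1; rw [Real.log_exp]
              rw [h8] at h7
              have h9 : 3 / κ ≤ Real.log B.card - Real.log (fc B g x.2) := by linarith
              have h10 := mul_le_mul_of_nonneg_left h9 h0.le
              have h11 : κ * (3 / κ) = 3 := by field_simp
              linarith
        refine le_trans (le_of_eq ?_) (sum_le_sum hpt2)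
        rw [sum_add_distrib, hS, sum_ind A B w (fun _ => True), sum_ind A B (fun a => ¬ w a)
          (fun b => g b ≠ g b₀), filter_true]
      refine le_trans ?_ hbud
      have e1 : a0 * B.card * (2 * q) = 2 * (a0 * Y.card) := by rw [← hqc]; ring
      have e2 : a1 * Y.card * -Real.log q ≤ a1 * B.card := by
        rw [← hqc]
        have h2 := mul_log_inv_le hq0
        have h3 : a1 * (q * B.card) * -Real.log q = a1 * B.card * (q * -Real.log q) := by ring
        rw [h3]
        have h4 : 0 ≤ a1 * B.card := by positivity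
        nlinarith
      have e3 : 2 ≤ CR κ := by
        unfold CR
        have : Real.log (κ * c1 κ / 2) ≤ 0 := Real.log_nonpos hθ0.le (by linarith)
        linarith
      have e4 : 0 ≤ a1 * B.card := by positivity
      have e5 : 0 ≤ a0 * Y.card := by positivity
      rw [e1]
      nlinarith

end Pool.Agent.L5helper37.PF
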