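import Mathlib
import Pool.Agent.L5helper37.PF.StepR

/-!
# One digit step of a dilate sum
-/

set_option autoImplicit false

namespace Pool.Agent.L5helper37.PF

open Finset Pool.Agent.Y359.PE
open scoped Classical

variable {α β γ δ δ' : Type*}

noncomputable def c5 (κ : ℝ) : ℝ := Real.exp (-(8 / κ))
noncomputable def t1 (κ : ℝ) : ℝ := κ * c5 κ / 2
noncomputable def cv (κ : ℝ) : ℝ := Real.exp (Real.log (t1 κ) / κ)
noncomputable def t2 (κ : ℝ) : ℝ := κ * cv κ / 2
noncomputable def cu (κ : ℝ) : ℝ := Real.exp (Real.log (t2 κ) / κ)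

lemma c5_pos (κ : ℝ) : 0 < c5 κ := Real.exp_pos _
lemma cv_pos (κ : ℝ) : 0 < cv κ := Real.exp_pos _
lemma cu_pos (κ : ℝ) : 0 < cu κ := Real.exp_pos _

lemma log_c5 {κ : ℝ} (h0 : 0 < κ) : κ * -Real.log (c5 κ) = 8 := by
  unfold c5
  rw [Real.log_exp]
  field_simp

lemma c5_le {κ : ℝ} (h0 : 0 < κ) (h1 : κ ≤ 1) : c5 κ ≤ 1 / 9 := by
  unfold c5
  have h2 : (8 : ℝ) ≤ 8 / κ := by
    rw [le_div_iff₀ h0]
    nlinarith
  rw [Real.exp_neg, inv_le_comm₀ (Real.exp_pos _) (by norm_num)]
  have h3 := Real.add_one_le_exp (8 / κ)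
  have : ((1 : ℝ) / 9)⁻¹ = 9 := by norm_num
  rw [this]
  linarith

lemma t1_pos {κ : ℝ} (h0 : 0 < κ) : 0 < t1 κ := by
  have := c5_pos κ
  unfold t1
  positivity

lemma t2_pos {κ : ℝ} (h0 : 0 < κ) : 0 < t2 κ := by
  have := cv_pos κ
  unfold t2
  positivity

lemma t1_le {κ : ℝ} (h1 : κ ≤ 1) : t1 κ ≤ c5 κ / 2 := by
  have := c5_pos κ
  unfold t1
  nlinarith

lemma t2_le {κ : ℝ} (h1 : κ ≤ 1) : t2 κ ≤ cv κ / 2 := by
  have := cv_pos κ
  unfold t2
  nlinarith

lemma log_cv {κ : ℝ} (h0 : 0 < κ) : κ * -Real.log (cv κ) = -Real.log (t1 κ) := by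
  unfold cv
  rw [Real.log_exp]
  field_simp

lemma log_cu {κ : ℝ} (h0 : 0 < κ) : κ * -Real.log (cu κ) = -Real.log (t2 κ) := by
  unfold cu
  rw [Real.log_exp]
  field_simp

/-- the value at an exponent at least one -/
lemma exp_log_div_le {κ t : ℝ} (h0 : 0 < κ) (h1 : κ ≤ 1) (ht : 0 < t) (ht1 : t ≤ 1) :
    Real.exp (Real.log t / κ) ≤ t := by
  have h2 : Real.log t / κ ≤ Real.log t := by
    rw [div_le_iff₀ h0]
    have := Real.log_nonpos ht.le ht1
    nlinarith
  calc Real.exp (Real.log t / κ) ≤ Real.exp (Real.log t) := Real.exp_le_exp.2 h2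
    _ = t := Real.exp_log ht

lemma cv_le {κ : ℝ} (h0 : 0 < κ) (h1 : κ ≤ 1) : cv κ ≤ 1 / 9 := by
  have h2 := t1_le h1
  have h3 := c5_le h0 h1
  have h4 := exp_log_div_le h0 h1 (t1_pos h0) (by linarith)
  unfold cv
  linarith

lemma cu_le {κ : ℝ} (h0 : 0 < κ) (h1 : κ ≤ 1) : cu κ ≤ 1 / 9 := by
  have h2 := t2_le h1
  have h3 := cv_le h0 h1
  have h4 := exp_log_div_le h0 h1 (t2_pos h0) (by linarith)
  unfold cu
  linarith

lemma log_t1 {κ : ℝ} (h0 : 0 < κ) (h1 : κ ≤ 1) : 8 ≤ -Real.log (t1 κ) := by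
  have h2 := t1_le h1
  have h3 := c5_pos κ
  have h4 := Real.log_le_log (t1_pos h0) (h2.trans (by linarith : c5 κ / 2 ≤ c5 κ))
  have h5 : Real.log (c5 κ) = -(8 / κ) := by unfold c5; rw [Real.log_exp]
  have h6 : (8 : ℝ) ≤ 8 / κ := by
    rw [le_div_iff₀ h0]
    nlinarith
  linarith

lemma log_t2 {κ : ℝ} (h0 : 0 < κ) (h1 : κ ≤ 1) : 8 ≤ -Real.log (t2 κ) := by
  have h2 := t2_le h1
  have h3 := cv_pos κ
  have h4 := Real.log_le_log (t2_pos h0) (h2.trans (by linarith : cv κ / 2 ≤ cv κ))
  have h5 := exp_log_div_le h0 h1 (t1_pos h0) (by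
    have := t1_le h1
    have := c5_le h0 h1
    linarith)
  have h6 := Real.log_le_log h3 h5
  have h7 := log_t1 h0 h1
  linarith

/-- `u` is not in a class with a share of at least `1 - c` -/
def Wd (R : Finset α) (f : α → δ) (c : ℝ) (u : α) : Prop := (fc R f u : ℝ) < (1 - c) * R.card

lemma Wd_congr {R : Finset α} {f : α → δ} {c : ℝ} {u u' : α} (h : f u = f u') :
    Wd R f c u ↔ Wd R f c u' := by
  unfold Wd
  rw [fc_congr h]

lemma card_fc_add {R : Finset α} {f : α → δ} {u u' : α} (h : f u ≠ f u') :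
    fc R f u + fc R f u' ≤ R.card := by
  unfold fc
  rw [← card_union_of_disjoint]
  · exact card_le_card (union_subset (filter_subset _ _) (filter_subset _ _))
  · rw [disjoint_left]
    intro x hx hx'
    rw [mem_cl] at hx hx'
    exact h (hx.2.symm.trans hx'.2)

/-- the case of a large class -/
lemma maj {R : Finset α} {f : α → δ} {c : ℝ} (hc : c < 1 / 2) {r0 : α} (hr0 : r0 ∈ R)
    (h : ¬ Wd R f c r0) : (∀ u, ¬ Wd R f c u ↔ f u = f r0) ∧
    ((R.filter (Wd R f c)).card : ℝ) ≤ c * R.card := by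
  have hR : (0 : ℝ) < R.card := by exact_mod_cast card_pos.2 ⟨r0, hr0⟩
  have h1 : ∀ u, ¬ Wd R f c u ↔ f u = f r0 := by
    intro u
    constructor
    · intro hu
      by_contra hne
      have h2 : ((fc R f u + fc R f r0 : ℕ) : ℝ) ≤ R.card := by exact_mod_cast card_fc_add hne
      push_cast at h2
      unfold Wd at hu h
      push Not at hu h
      nlinarith
    · intro hu
      rwa [Wd_congr hu]
  refine ⟨h1, ?_⟩
  have h2 : R.filter (Wd R f c) = R.filter fun u => f u ≠ f r0 := by
    refine filter_congr fun u _ => ?_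
    have := h1 u
    tauto
  rw [h2, card_ne]
  unfold Wd at h
  push Not at h
  linarith

/-- the reference classes cost at least as much as the classes of the subset -/
lemma gibbs_ref (R U : Finset α) (hU : U ⊆ R) (f : α → δ) :
    ∑ u ∈ U, (Real.log U.card - Real.log (fc U f u)) ≤
      ∑ u ∈ U, (Real.log R.card - Real.log (fc R f u)) := by
  rcases U.eq_empty_or_nonempty with h0 | hne
  · rw [h0]
    simp
  have hUc : (0 : ℝ) < U.card := by exact_mod_cast card_pos.2 hne
  have hRc : (0 : ℝ) < R.card := by exact_mod_cast card_pos.2 (hne.mono hU)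
  have h1 : ∀ u ∈ U, Real.log U.card - Real.log (fc U f u) ≤
      Real.log R.card - Real.log (fc R f u) +
      (U.card / R.card * ((fc R f u : ℝ) * (1 / fc U f u)) - 1) := by
    intro u hu
    have h2 := fc_posR (f := f) hu
    have h3 := fc_posR (f := f) (hU hu)
    have h4 : (0 : ℝ) < U.card / R.card * ((fc R f u : ℝ) * (1 / fc U f u)) := by positivity
    have h5 := Real.log_le_sub_one_of_pos h4
    have h6 : Real.log (U.card / R.card * ((fc R f u : ℝ) * (1 / fc U f u))) =
        Real.log U.card - Real.log R.card + (Real.log (fc R f u) - Real.log (fc U f u)) := by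
      rw [Real.log_mul (by positivity) (by positivity), Real.log_div hUc.ne' hRc.ne',
        Real.log_mul h3.ne' (by positivity), Real.log_div one_ne_zero h2.ne', Real.log_one]
      ring
    linarith
  refine (sum_le_sum h1).trans ?_
  rw [sum_add_distrib, sum_sub_distrib (f := fun u => (U.card : ℝ) / R.card *
    ((fc R f u : ℝ) * (1 / fc U f u))), ← mul_sum, sum_const, nsmul_eq_mul, mul_one]
  have h7 : ∑ u ∈ U, (fc R f u : ℝ) * (1 / fc U f u) ≤ R.card := by
    have e1 : ∀ u ∈ U, (fc R f u : ℝ) * (1 / fc U f u) =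
        ∑ r ∈ R, if f u = f r then (1 : ℝ) / fc U f u else 0 := by
      intro u hu
      rw [← sum_filter, sum_const, nsmul_eq_mul]
      congr 2
      unfold fc cl
      congr 1
      ext r
      simp only [mem_filter]
      constructor <;> rintro ⟨a, b⟩ <;> exact ⟨a, b.symm⟩
    rw [sum_congr rfl e1, sum_comm]
    calc ∑ r ∈ R, ∑ u ∈ U, (if f u = f r then (1 : ℝ) / fc U f u else 0) ≤ ∑ r ∈ R, (1 : ℝ) := by
          refine sum_le_sum fun r _ => ?_
          rw [← sum_filter]
          exact sum_inv_fc_fiber U f (f r)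
      _ = _ := by simp
  have h8 := mul_le_mul_of_nonneg_left h7 (show (0 : ℝ) ≤ U.card / R.card by positivity)
  have h9 : (U.card : ℝ) / R.card * R.card = U.card := by field_simp
  linarith

/-- the label of the digit step -/
noncomputable def labD (κ : ℝ) (R : Finset α) (V : Finset β) (f : α → δ) (g : β → δ')
    (x : α × β) : Option (δ × δ') :=
  if Wd R f (cu κ) x.1 ∧ Wd V g (cv κ) x.2 then none else some (f x.1, g x.2)

/-- the new first reference set -/
noncomputable def Rn (κ : ℝ) (R : Finset α) (V : Finset β) (f : α → δ) (g : β → δ')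
    (x : α × β) : Finset α :=
  if Wd R f (cu κ) x.1 ∧ Wd V g (cv κ) x.2 then R.filter (Wd R f (cu κ)) else cl R f x.1

/-- the new second reference set -/
noncomputable def Vn (κ : ℝ) (R : Finset α) (V : Finset β) (f : α → δ) (g : β → δ')
    (x : α × β) : Finset β :=
  if Wd R f (cu κ) x.1 ∧ Wd V g (cv κ) x.2 then V.filter (Wd V g (cv κ)) else cl V g x.2

/-- the logarithmic loss of the references -/
noncomputable def rr (κ : ℝ) (R : Finset α) (V : Finset β) (f : α → δ) (g : β → δ')
    (x : α × β) : ℝ :=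
  (Real.log R.card - Real.log (Rn κ R V f g x).card)

noncomputable def vv (κ : ℝ) (R : Finset α) (V : Finset β) (f : α → δ) (g : β → δ')
    (x : α × β) : ℝ :=
  (Real.log V.card - Real.log (Vn κ R V f g x).card)

section
variable {κ : ℝ} {R : Finset α} {V : Finset β} {f : α → δ} {g : β → δ'} {x : α × β}

lemma mem_Rn (hx : x.1 ∈ R) : x.1 ∈ Rn κ R V f g x := by
  unfold Rn
  split_ifs with h
  · exact mem_filter.2 ⟨hx, h.1⟩
  · exact mem_cl.2 ⟨hx, rfl⟩

lemma mem_Vn (hx : x.2 ∈ V) : x.2 ∈ Vn κ R V f g x := by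
  unfold Vn
  split_ifs with h
  · exact mem_filter.2 ⟨hx, h.2⟩
  · exact mem_cl.2 ⟨hx, rfl⟩

lemma Rn_subset : Rn κ R V f g x ⊆ R := by
  unfold Rn
  split_ifs with h
  · exact filter_subset _ _
  · exact filter_subset _ _

lemma Vn_subset : Vn κ R V f g x ⊆ V := by
  unfold Vn
  split_ifs with h
  · exact filter_subset _ _
  · exact filter_subset _ _

lemma rr_nonneg (hx : x.1 ∈ R) : 0 ≤ rr κ R V f g x := by
  unfold rr
  have h1 : (0 : ℝ) < (Rn κ R V f g x).card := by exact_mod_cast card_pos.2 ⟨_, mem_Rn hx⟩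
  have h2 : ((Rn κ R V f g x).card : ℝ) ≤ R.card := by exact_mod_cast card_le_card Rn_subset
  have := Real.log_le_log h1 h2
  linarith

lemma vv_nonneg (hx : x.2 ∈ V) : 0 ≤ vv κ R V f g x := by
  unfold vv
  have h1 : (0 : ℝ) < (Vn κ R V f g x).card := by exact_mod_cast card_pos.2 ⟨_, mem_Vn hx⟩
  have h2 : ((Vn κ R V f g x).card : ℝ) ≤ V.card := by exact_mod_cast card_le_card Vn_subset
  have := Real.log_le_log h1 h2
  linarith

lemma rr_ge (hx : x.1 ∈ R) (hw : Wd R f (cu κ) x.1)
    (hm : ((R.filter (Wd R f (cu κ))).card : ℝ) ≤ cu κ * R.card) :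
    -Real.log (cu κ) ≤ rr κ R V f g x := by
  unfold rr
  have h1 : (0 : ℝ) < (Rn κ R V f g x).card := by exact_mod_cast card_pos.2 ⟨_, mem_Rn hx⟩
  have h2 : ((Rn κ R V f g x).card : ℝ) ≤ cu κ * R.card := by
    refine le_trans ?_ hm
    have : Rn κ R V f g x ⊆ R.filter (Wd R f (cu κ)) := by
      unfold Rn
      split_ifs with h
      · exact subset_rfl
      · intro y hy
        rw [mem_cl] at hy
        exact mem_filter.2 ⟨hy.1, (Wd_congr hy.2).2 hw⟩
    exact_mod_cast card_le_card this
  have h3 := Real.log_le_log h1 h2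
  have h4 : (0 : ℝ) < R.card := by exact_mod_cast card_pos.2 ⟨_, hx⟩
  rw [Real.log_mul (cu_pos κ).ne' h4.ne'] at h3
  linarith

lemma vv_ge (hx : x.2 ∈ V) (hw : Wd V g (cv κ) x.2)
    (hm : ((V.filter (Wd V g (cv κ))).card : ℝ) ≤ cv κ * V.card) :
    -Real.log (cv κ) ≤ vv κ R V f g x := by
  unfold vv
  have h1 : (0 : ℝ) < (Vn κ R V f g x).card := by exact_mod_cast card_pos.2 ⟨_, mem_Vn hx⟩
  have h2 : ((Vn κ R V f g x).card : ℝ) ≤ cv κ * V.card := by
    refine le_trans ?_ hm
    have : Vn κ R V f g x ⊆ V.filter (Wd V g (cv κ)) := by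
      unfold Vn
      split_ifs with h
      · exact subset_rfl
      · intro y hy
        rw [mem_cl] at hy
        exact mem_filter.2 ⟨hy.1, (Wd_congr hy.2).2 hw⟩
    exact_mod_cast card_le_card this
  have h3 := Real.log_le_log h1 h2
  have h4 : (0 : ℝ) < V.card := by exact_mod_cast card_pos.2 ⟨_, hx⟩
  rw [Real.log_mul (cv_pos κ).ne' h4.ne'] at h3
  linarith

lemma rr_eq (h : ¬ (Wd R f (cu κ) x.1 ∧ Wd V g (cv κ) x.2)) :
    rr κ R V f g x = Real.log R.card - Real.log (fc R f x.1) := by
  unfold rr Rn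
  rw [if_neg h]
  rfl

lemma vv_eq (h : ¬ (Wd R f (cu κ) x.1 ∧ Wd V g (cv κ) x.2)) :
    vv κ R V f g x = Real.log V.card - Real.log (fc V g x.2) := by
  unfold vv Vn
  rw [if_neg h]
  rfl

end

/-- the share of a class in the logarithmic scale -/
lemma share_le {U : Finset α} {f : α → δ} {c : ℝ} (hc : c < 1) {u : α} (hu : u ∈ U)
    (h : (fc U f u : ℝ) ≤ (1 - c) * U.card) : c ≤ Real.log U.card - Real.log (fc U f u) := by
  have h1 := fc_posR (f := f) hu
  have h2 : (0 : ℝ) < U.card := by exact_mod_cast card_pos.2 ⟨u, hu⟩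
  have h3 := Real.log_le_log h1 h
  rw [Real.log_mul (by linarith) h2.ne'] at h3
  have h4 := Real.log_le_sub_one_of_pos (show 0 < 1 - c by linarith)
  linarith

lemma sub_fc_nonneg {U : Finset α} {f : α → δ} {u : α} (hu : u ∈ U) :
    0 ≤ Real.log U.card - Real.log (fc U f u) := by
  have h1 := fc_posR (f := f) hu
  have h2 : (fc U f u : ℝ) ≤ U.card := by exact_mod_cast fc_le
  have h3 := Real.log_le_log h1 h2
  linarith

/-- passing to a finer label -/
lemma lab_le {ε : Type*} {ζ : Type*} (S : Finset α) (s : α → γ) (lab : α → ε) (b : α → ζ)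
    (c : ℝ) (h : ∀ x ∈ S, ∀ y ∈ S, s x = s y → b x = b y → lab x = lab y)
    (hc : ∑ x ∈ S, (Real.log (fc S s x) - Real.log (fc S (fun x => (s x, b x)) x)) ≤ c) :
    ∑ x ∈ S, (Real.log (fc S s x) - Real.log (fc S (fun x => (s x, lab x)) x)) ≤ c := by
  refine le_trans (sum_le_sum fun x hx => ?_) hc
  have h2 : fc S (fun x => (s x, b x)) x ≤ fc S (fun x => (s x, lab x)) x := by
    refine fc_le_of_imp fun y hy hyx => ?_
    rw [Prod.mk.injEq] at hyx ⊢
    exact ⟨hyx.1, h y hy x hx hyx.1 hyx.2⟩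
  have h3 : (0 : ℝ) < fc S (fun x => (s x, b x)) x := fc_posR hx
  have h4 : Real.log (fc S (fun x => (s x, b x)) x) ≤ Real.log (fc S (fun x => (s x, lab x)) x) :=
    Real.log_le_log h3 (by exact_mod_cast h2)
  linarith

lemma bit_pt (S : Finset α) (s : α → γ) (W : α → Prop) {t : ℝ} (h0 : 0 < t) (h1 : t ≤ 1 / 2) :
    ∑ x ∈ S, (Real.log (fc S s x) - Real.log (fc S (fun x => (s x, decide (W x))) x)) ≤
      ∑ x ∈ S, (if W x then -Real.log t else 2 * t) := by
  refine (cond_gibbs S s (fun x => decide (W x)) (fun _ d => if d then t else 1 - t)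
    (fun x _ => ?_) (fun _ d => ?_) (fun _ => ?_)).trans (sum_le_sum fun x hx => ?_)
  · split_ifs <;> linarith
  · split_ifs <;> linarith
  · simp
  · by_cases hw : W x
    · simp only [hw, decide_true, if_true]
      exact le_rfl
    · simp only [hw, decide_false, if_false, Bool.false_eq_true]
      exact log_inv_le h0.le h1

/-- **Two bits** -/
lemma bits_two (U : Finset α) (V : Finset β) (D : α → Prop) (W : β → Prop) (s : α × β → γ)
    (h1 : ∀ x ∈ U ×ˢ V, ∀ y ∈ U ×ˢ V, s x = s y → ¬ D x.1 → ¬ W x.2 → (D y.1 ↔ W y.2))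
    (h2 : ((V.filter W).card : ℝ) ≤ 1 / 2 * V.card) :
    ∑ x ∈ U ×ˢ V, (Real.log (fc (U ×ˢ V) s x) - Real.log (fc (U ×ˢ V)
      (fun x => (s x, (decide (D x.1), decide (W x.2)))) x)) ≤
      ∑ x ∈ U ×ˢ V, ((if D x.1 then 3 else 0) + (if W x.2 then 4 else 0)) := by
  set S := U ×ˢ V with hS
  rcases V.eq_empty_or_nonempty with hV | hV
  · rw [hS, hV]
    simp
  have hV0 : (0 : ℝ) < V.card := by exact_mod_cast card_pos.2 hV
  set q : ℝ := (V.filter W).card / V.card with hq
  have hqc : q * V.card = (V.filter W).card := by rw [hq]; field_simp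
  have hq0 : 0 ≤ q := by positivity
  have hq1 : q ≤ 1 / 2 := by
    rw [hq, div_le_iff₀ hV0]
    exact h2
  have hl3 : Real.log 3 ≤ 2 := by
    have := Real.log_le_sub_one_of_pos (show (0 : ℝ) < 3 by norm_num)
    linarith
  have hl30 : 0 ≤ Real.log 3 := Real.log_nonneg (by norm_num)
  have hqpos : ∀ x ∈ S, W x.2 → 0 < q := by
    intro x hx h
    have : (0 : ℝ) < (V.filter W).card := by
      exact_mod_cast card_pos.2 ⟨x.2, mem_filter.2 ⟨(mem_product.1 hx).2, h⟩⟩
    positivity
  let Z : γ → Prop := fun σ => ∃ x ∈ S, ¬ D x.1 ∧ ¬ W x.2 ∧ s x = σ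
  have hZ1 : ∀ y ∈ S, Z (s y) → (D y.1 ↔ W y.2) := by
    rintro y hy ⟨x, hx, hd, hw, hsx⟩
    exact h1 x hx y hy hsx hd hw
  refine (cond_gibbs S s (fun x => (decide (D x.1), decide (W x.2)))
    (fun σ d => if Z σ then (if d.1 then (if d.2 then q else 0) else (if d.2 then 0 else 1 - q))
      else (if d.1 then 1 / 3 else (if d.2 then 1 / 3 else 0)))
    (fun x hx => ?_) (fun σ d => ?_) (fun σ => ?_)).trans ?_
  · by_cases hz : Z (s x)
    · have h3 := hZ1 x hx hz
      by_cases hd : D x.1
      · have hw := h3.1 hd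
        have := hqpos x hx hw
        simp [hz, hd, hw, this]
      · have hw : ¬ W x.2 := fun h => hd (h3.2 h)
        simp only [hz, hd, hw, decide_false, if_true, if_false, Bool.false_eq_true]
        linarith
    · by_cases hd : D x.1
      · simp [hz, hd]
      · by_cases hw : W x.2
        · simp [hz, hd, hw]
        · exact absurd ⟨x, hx, hd, hw, rfl⟩ hz
  · split_ifs <;> linarith
  · by_cases hz : Z σ
    · simp [hz, Fintype.sum_prod_type]
    · simp only [hz, if_false, Fintype.sum_prod_type, Fintype.sum_bool]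
      norm_num
  · have hlq : 0 ≤ -Real.log q := by
      have := Real.log_nonpos hq0 (by linarith : q ≤ 1)
      linarith
    have hpt : ∀ x ∈ S, -Real.log (if Z (s x) then (if decide (D x.1) then
        (if decide (W x.2) then q else 0) else (if decide (W x.2) then 0 else 1 - q))
        else (if decide (D x.1) then 1 / 3 else (if decide (W x.2) then 1 / 3 else 0))) ≤
        2 * q + (if D x.1 ∧ W x.2 then -Real.log q else 0) +
        ((if D x.1 then 2 else 0) + (if W x.2 then 2 else 0)) := by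
      intro x hx
      have hl3' : -Real.log (1 / 3) ≤ 2 := by
        rw [one_div, Real.log_inv]
        linarith
      by_cases hz : Z (s x)
      · have h3 := hZ1 x hx hz
        by_cases hd : D x.1
        · have hw := h3.1 hd
          simp only [hz, hd, hw, decide_true, if_true, and_self]
          linarith
        · have hw : ¬ W x.2 := fun h => hd (h3.2 h)
          have h4 := log_inv_le hq0 hq1
          simp only [hz, hd, hw, decide_false, if_true, if_false, Bool.false_eq_true, and_self]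
          linarith
      · by_cases hd : D x.1
        · have h5 : -Real.log (if Z (s x) then (if decide (D x.1) then
            (if decide (W x.2) then q else 0) else (if decide (W x.2) then 0 else 1 - q))
            else (if decide (D x.1) then 1 / 3 else (if decide (W x.2) then 1 / 3 else 0))) =
              -Real.log (1 / 3) := by simp [hz, hd]
          rw [h5]
          by_cases hw : W x.2
          · simp only [hd, hw, if_true, and_self]
            linarith
          · simp only [hd, hw, if_true, if_false, and_false]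
            linarith
        · by_cases hw : W x.2
          · have h5 : -Real.log (if Z (s x) then (if decide (D x.1) then
              (if decide (W x.2) then q else 0) else (if decide (W x.2) then 0 else 1 - q))
              else (if decide (D x.1) then 1 / 3 else (if decide (W x.2) then 1 / 3 else 0))) =
                -Real.log (1 / 3) := by simp [hz, hd, hw]
            rw [h5]
            simp only [hd, hw, if_true, if_false, false_and]
            linarith
          · exact absurd ⟨x, hx, hd, hw, rfl⟩ hz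
    refine (sum_le_sum hpt).trans ?_
    have i1 : ∑ x ∈ S, (2 * q) = 2 * (U.card * (V.filter W).card : ℝ) := by
      rw [sum_const, nsmul_eq_mul, hS, card_product, ← hqc]
      push_cast
      ring
    have i2 := sum_ind U V D W (-Real.log q)
    have i3 := sum_ind U V D (fun _ => True) (1 : ℝ)
    have i4 := sum_ind U V (fun _ => True) W (1 : ℝ)
    simp only [and_true, true_and, filter_true, mul_one] at i3 i4
    have j3 : ∀ c : ℝ, ∑ x ∈ S, (if D x.1 then c else 0) = (U.filter D).card * V.card * c := by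
      intro c
      rw [← i3, sum_mul]
      refine sum_congr rfl fun x _ => ?_
      split_ifs <;> ring
    have j4 : ∀ c : ℝ, ∑ x ∈ S, (if W x.2 then c else 0) = U.card * (V.filter W).card * c := by
      intro c
      rw [← i4, sum_mul]
      refine sum_congr rfl fun x _ => ?_
      split_ifs <;> ring
    rw [sum_add_distrib, sum_add_distrib, sum_add_distrib, sum_add_distrib, i1, i2, j3, j3, j4, j4]
    have e2 : ((U.filter D).card : ℝ) * (V.filter W).card * -Real.log q ≤
        (U.filter D).card * V.card := by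
      rw [← hqc]
      have h2 := mul_log_inv_le hq0
      have h3 : ((U.filter D).card : ℝ) * (q * V.card) * -Real.log q =
        (U.filter D).card * V.card * (q * -Real.log q) := by ring
      rw [h3]
      have h4 : (0 : ℝ) ≤ (U.filter D).card * V.card := by positivity
      nlinarith
    linarith

end Pool.Agent.L5helper37.PF
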