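import Mathlib
import Pool.Agent.L5helper37.PF.StepD

/-!
# One digit step of a dilate sum: the four cases
-/

set_option autoImplicit false

namespace Pool.Agent.L5helper37.PF

open Finset Pool.Agent.Y359.PE
open scoped Classical

variable {α β γ δ δ' : Type*}

/-- the budget when the second factor has a large class -/
lemma budC {κ : ℝ} (h0 : 0 < κ) (R U : Finset α) (V : Finset β) (hU : U ⊆ R) (f : α → δ)
    (g : β → δ') (hV : ((V.filter (Wd V g (cv κ))).card : ℝ) ≤ cv κ * V.card) :
    ∑ x ∈ U ×ˢ V, (if Wd V g (cv κ) x.2 then -Real.log (t1 κ) else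
      κ * (Real.log U.card - Real.log (fc U f x.1))) ≤
    ∑ x ∈ U ×ˢ V, κ * (rr κ R V f g x + vv κ R V f g x) := by
  have e1 : ∑ x ∈ U ×ˢ V, (if Wd V g (cv κ) x.2 then (0 : ℝ) else
      (Real.log U.card - Real.log (fc U f x.1))) ≤
      ∑ x ∈ U ×ˢ V, (if Wd V g (cv κ) x.2 then (0 : ℝ) else
      (Real.log R.card - Real.log (fc R f x.1))) := by
    rw [sum_product_right, sum_product_right]
    refine sum_le_sum fun v _ => ?_
    by_cases hv : Wd V g (cv κ) v
    · simp [hv]
    · simp only [hv, if_false]
      exact gibbs_ref R U hU f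
  have e2 : ∀ x ∈ U ×ˢ V, (if Wd V g (cv κ) x.2 then -Real.log (t1 κ) else
      κ * (Real.log U.card - Real.log (fc U f x.1))) ≤
      κ * (rr κ R V f g x + vv κ R V f g x) + κ * ((if Wd V g (cv κ) x.2 then (0 : ℝ) else
      (Real.log U.card - Real.log (fc U f x.1))) - (if Wd V g (cv κ) x.2 then (0 : ℝ) else
      (Real.log R.card - Real.log (fc R f x.1)))) := by
    intro x hx
    rw [mem_product] at hx
    have h1 := rr_nonneg (κ := κ) (V := V) (f := f) (g := g) (hU hx.1)
    have h2 := vv_nonneg (κ := κ) (R := R) (f := f) (g := g) hx.2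
    by_cases hw : Wd V g (cv κ) x.2
    · simp only [hw, if_true, sub_zero, mul_zero, add_zero]
      have h3 := vv_ge (R := R) (f := f) hx.2 hw hV
      rw [← log_cv h0]
      exact mul_le_mul_of_nonneg_left (by linarith) h0.le
    · simp only [hw, if_false]
      have h3 := rr_eq (κ := κ) (R := R) (V := V) (f := f) (g := g) (x := x) (fun h => hw h.2)
      have : 0 ≤ κ * vv κ R V f g x := mul_nonneg h0.le h2
      rw [h3]
      nlinarith
  refine (sum_le_sum e2).trans ?_
  rw [sum_add_distrib, ← mul_sum (f := fun x : α × β => ((if Wd V g (cv κ) x.2 then (0 : ℝ) else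
      (Real.log U.card - Real.log (fc U f x.1))) - (if Wd V g (cv κ) x.2 then (0 : ℝ) else
      (Real.log R.card - Real.log (fc R f x.1))))), sum_sub_distrib]
  have : 0 ≤ κ * (∑ x ∈ U ×ˢ V, (if Wd V g (cv κ) x.2 then (0 : ℝ) else
      (Real.log R.card - Real.log (fc R f x.1))) - ∑ x ∈ U ×ˢ V, (if Wd V g (cv κ) x.2 then
      (0 : ℝ) else (Real.log U.card - Real.log (fc U f x.1)))) :=
    mul_nonneg h0.le (by linarith)
  linarith

/-- **The digit step.** -/
lemma stepD {κ : ℝ} (h0 : 0 < κ) (h1 : κ ≤ 1) (R U : Finset α) (V : Finset β) (hU : U ⊆ R)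
    (f : α → δ) (g : β → δ') (s : α × β → γ)
    (hs : ∀ x ∈ U ×ˢ V, ∀ y ∈ U ×ˢ V, s x = s y → (f x.1 = f y.1 ↔ g x.2 = g y.2)) :
    ∑ x ∈ U ×ˢ V, (Real.log (fc (U ×ˢ V) s x) - Real.log (fc (U ×ˢ V)
      (fun x => (s x, labD κ R V f g x)) x)) ≤
      ∑ x ∈ U ×ˢ V, κ * (rr κ R V f g x + vv κ R V f g x) := by
  have hcu := cu_le h0 h1
  have hcv := cv_le h0 h1
  have hc5 := c5_le h0 h1
  have hcu0 := cu_pos κ
  have hcv0 := cv_pos κ
  have hc50 := c5_pos κ
  have ht1 := t1_pos h0
  have ht2 := t2_pos h0
  have ht1' := t1_le h1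
  have ht2' := t2_le h1
  have hlt1 := log_t1 h0 h1
  have hlt2 := log_t2 h0 h1
  by_cases hR : ∃ r0 ∈ R, ¬ Wd R f (cu κ) r0
  · obtain ⟨r0, hr0, hr0'⟩ := hR
    obtain ⟨hR1, hR2⟩ := maj (by linarith) hr0 hr0'
    by_cases hV : ∃ v0 ∈ V, ¬ Wd V g (cv κ) v0
    · -- case A
      obtain ⟨v0, hv0, hv0'⟩ := hV
      obtain ⟨hV1, hV2⟩ := maj (by linarith) hv0 hv0'
      refine lab_le _ s (labD κ R V f g) (fun x => (decide (Wd R f (cu κ) x.1),
        decide (Wd V g (cv κ) x.2))) _ (fun x hx y hy hxy hb => ?_) ?_
      · rw [Prod.mk.injEq, decide_eq_decide, decide_eq_decide] at hb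
        have h2 := hs x hx y hy hxy
        unfold labD
        by_cases hu : Wd R f (cu κ) x.1
        · by_cases hv : Wd V g (cv κ) x.2
          · rw [if_pos ⟨hu, hv⟩, if_pos ⟨hb.1.1 hu, hb.2.1 hv⟩]
          · have hv' : ¬ Wd V g (cv κ) y.2 := fun h => hv (hb.2.2 h)
            have h3 : g x.2 = g y.2 := ((hV1 x.2).1 hv).trans ((hV1 y.2).1 hv').symm
            rw [if_neg (fun h => hv h.2), if_neg (fun h => hv' h.2), h3, h2.2 h3]
        · have hu' : ¬ Wd R f (cu κ) y.1 := fun h => hu (hb.1.2 h)
          have h3 : f x.1 = f y.1 := ((hR1 x.1).1 hu).trans ((hR1 y.1).1 hu').symm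
          rw [if_neg (fun h => hu h.1), if_neg (fun h => hu' h.1), h3, h2.1 h3]
      · refine (bits_two U V (Wd R f (cu κ)) (Wd V g (cv κ)) s ?_ ?_).trans
          (sum_le_sum fun x hx => ?_)
        · intro x hx y hy hxy hd hw
          have h2 := hs x hx y hy hxy
          have a1 := (hR1 x.1).1 hd
          have a2 := (hV1 x.2).1 hw
          have a3 := hR1 y.1
          have a4 := hV1 y.2
          rw [a1, a2] at h2
          constructor
          · intro h
            by_contra h'
            exact a3.2 (h2.2 (a4.1 h').symm).symm h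
          · intro h
            by_contra h'
            exact a4.2 (h2.1 (a3.1 h').symm).symm h
        · have : (0 : ℝ) ≤ V.card := Nat.cast_nonneg _
          nlinarith
        · rw [mem_product] at hx
          have b1 := rr_nonneg (κ := κ) (V := V) (f := f) (g := g) (hU hx.1)
          have b2 := vv_nonneg (κ := κ) (R := R) (f := f) (g := g) hx.2
          rw [mul_add]
          refine add_le_add ?_ ?_
          · split_ifs with hu
            · have h3 := rr_ge (V := V) (g := g) (hU hx.1) hu hR2
              have h4 := mul_le_mul_of_nonneg_left h3 h0.le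
              rw [log_cu h0] at h4
              linarith
            · exact mul_nonneg h0.le b1
          · split_ifs with hv
            · have h3 := vv_ge (R := R) (f := f) hx.2 hv hV2
              have h4 := mul_le_mul_of_nonneg_left h3 h0.le
              rw [log_cv h0] at h4
              linarith
            · exact mul_nonneg h0.le b2
    · -- case B
      push Not at hV
      refine lab_le _ s (labD κ R V f g) (fun x => decide (Wd R f (cu κ) x.1)) _
        (fun x hx y hy hxy hb => ?_) ?_
      · rw [decide_eq_decide] at hb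
        have h2 := hs x hx y hy hxy
        have hvx := hV x.2 (mem_product.1 hx).2
        have hvy := hV y.2 (mem_product.1 hy).2
        unfold labD
        by_cases hu : Wd R f (cu κ) x.1
        · rw [if_pos ⟨hu, hvx⟩, if_pos ⟨hb.1 hu, hvy⟩]
        · have hu' : ¬ Wd R f (cu κ) y.1 := fun h => hu (hb.2 h)
          have h3 : f x.1 = f y.1 := ((hR1 x.1).1 hu).trans ((hR1 y.1).1 hu').symm
          rw [if_neg (fun h => hu h.1), if_neg (fun h => hu' h.1), h3, h2.1 h3]
      · refine (bit_pt _ s (fun x => Wd R f (cu κ) x.1) ht2 (by linarith)).trans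
          (sum_le_sum fun x hx => ?_)
        rw [mem_product] at hx
        have b1 := rr_nonneg (κ := κ) (V := V) (f := f) (g := g) (hU hx.1)
        have b2 := vv_nonneg (κ := κ) (R := R) (f := f) (g := g) hx.2
        split_ifs with hu
        · have h3 := rr_ge (V := V) (g := g) (hU hx.1) hu hR2
          rw [← log_cu h0]
          exact mul_le_mul_of_nonneg_left (by linarith) h0.le
        · have h3 := vv_eq (κ := κ) (R := R) (V := V) (f := f) (g := g) (x := x)
            (fun h => hu h.1)
          have h4 := hV x.2 hx.2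
          have h5 := share_le (by linarith) hx.2 h4.le
          rw [← h3] at h5
          have h6 : 2 * t2 κ = κ * cv κ := by unfold t2; ring
          rw [h6]
          exact mul_le_mul_of_nonneg_left (by linarith) h0.le
  · push Not at hR
    by_cases hV : ∃ v0 ∈ V, ¬ Wd V g (cv κ) v0
    · obtain ⟨v0, hv0, hv0'⟩ := hV
      obtain ⟨hV1, hV2⟩ := maj (by linarith) hv0 hv0'
      have hbud := budC h0 R U V hU f g hV2
      -- the label is determined by the second bit
      have hlab : ∀ x ∈ U ×ˢ V, ∀ y ∈ U ×ˢ V, s x = s y →
          (Wd V g (cv κ) x.2 ↔ Wd V g (cv κ) y.2) → labD κ R V f g x = labD κ R V f g y := by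
        intro x hx y hy hxy hb
        have h2 := hs x hx y hy hxy
        have hux := hR x.1 (hU (mem_product.1 hx).1)
        have huy := hR y.1 (hU (mem_product.1 hy).1)
        unfold labD
        by_cases hv : Wd V g (cv κ) x.2
        · rw [if_pos ⟨hux, hv⟩, if_pos ⟨huy, hb.1 hv⟩]
        · have hv' : ¬ Wd V g (cv κ) y.2 := fun h => hv (hb.2 h)
          have h3 : g x.2 = g y.2 := ((hV1 x.2).1 hv).trans ((hV1 y.2).1 hv').symm
          rw [if_neg (fun h => hv h.2), if_neg (fun h => hv' h.2), h3, h2.2 h3]
      by_cases hmid : ∃ u0 ∈ U, ¬ (fc U f u0 : ℝ) < (1 - c5 κ) * U.card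
      · -- case C2
        obtain ⟨u0, hu0, hu0'⟩ := hmid
        obtain ⟨hU1, hU2⟩ := maj (R := U) (f := f) (c := c5 κ) (by linarith) hu0 hu0'
        refine lab_le _ s (labD κ R V f g) (fun x => (decide (Wd U f (c5 κ) x.1),
          decide (Wd V g (cv κ) x.2))) _ (fun x hx y hy hxy hb => ?_) ?_
        · rw [Prod.mk.injEq, decide_eq_decide, decide_eq_decide] at hb
          exact hlab x hx y hy hxy hb.2
        · refine le_trans (bits_two U V (Wd U f (c5 κ)) (Wd V g (cv κ)) s ?_ ?_)
            (le_trans (sum_le_sum fun x hx => ?_) hbud)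
          · intro x hx y hy hxy hd hw
            have h2 := hs x hx y hy hxy
            have a1 := (hU1 x.1).1 hd
            have a2 := (hV1 x.2).1 hw
            have a3 := hU1 y.1
            have a4 := hV1 y.2
            rw [a1, a2] at h2
            constructor
            · intro h
              by_contra h'
              exact a3.2 (h2.2 (a4.1 h').symm).symm h
            · intro h
              by_contra h'
              exact a4.2 (h2.1 (a3.1 h').symm).symm h
          · have : (0 : ℝ) ≤ V.card := Nat.cast_nonneg _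
            nlinarith
          · rw [mem_product] at hx
            by_cases hv : Wd V g (cv κ) x.2
            · simp only [hv, if_true]
              split_ifs <;> linarith
            · simp only [hv, if_false]
              split_ifs with hd
              · have h3 : (fc U f x.1 : ℝ) ≤ c5 κ * U.card := by
                  refine le_trans ?_ hU2
                  have : cl U f x.1 ⊆ U.filter (Wd U f (c5 κ)) := by
                    intro y hy
                    rw [mem_cl] at hy
                    exact mem_filter.2 ⟨hy.1, (Wd_congr hy.2).2 hd⟩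
                  exact_mod_cast card_le_card this
                have h4 := Real.log_le_log (fc_posR (f := f) hx.1) h3
                have h5 : (0 : ℝ) < U.card := by exact_mod_cast card_pos.2 ⟨_, hx.1⟩
                rw [Real.log_mul hc50.ne' h5.ne'] at h4
                have h6 : -Real.log (c5 κ) ≤ Real.log U.card - Real.log (fc U f x.1) := by
                  linarith
                have h7 := mul_le_mul_of_nonneg_left h6 h0.le
                rw [log_c5 h0] at h7
                linarith
              · rw [add_zero]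
                exact mul_nonneg h0.le (sub_fc_nonneg hx.1)
      · -- case C1
        push Not at hmid
        refine lab_le _ s (labD κ R V f g) (fun x => decide (Wd V g (cv κ) x.2)) _
          (fun x hx y hy hxy hb => ?_) ?_
        · rw [decide_eq_decide] at hb
          exact hlab x hx y hy hxy hb
        · refine le_trans (bit_pt _ s (fun x => Wd V g (cv κ) x.2) ht1 (by linarith))
            (le_trans (sum_le_sum fun x hx => ?_) hbud)
          rw [mem_product] at hx
          split_ifs with hv
          · exact le_rfl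
          · have h3 := share_le (by linarith) hx.1 (hmid x.1 hx.1).le
            have h6 : 2 * t1 κ = κ * c5 κ := by unfold t1; ring
            rw [h6]
            exact mul_le_mul_of_nonneg_left h3 h0.le
    · -- case D
      push Not at hV
      refine lab_le _ s (labD κ R V f g) (fun _ => ()) _ (fun x hx y hy _ _ => ?_) ?_
      · unfold labD
        rw [if_pos ⟨hR x.1 (hU (mem_product.1 hx).1), hV x.2 (mem_product.1 hx).2⟩,
          if_pos ⟨hR y.1 (hU (mem_product.1 hy).1), hV y.2 (mem_product.1 hy).2⟩]
      · refine sum_le_sum fun x hx => ?_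
        have h3 : fc (U ×ˢ V) (fun x => (s x, ())) x = fc (U ×ˢ V) s x := by
          unfold fc
          congr 1
          ext y
          rw [mem_cl, mem_cl, Prod.mk.injEq]
          simp
        rw [h3, sub_self]
        rw [mem_product] at hx
        have b1 := rr_nonneg (κ := κ) (V := V) (f := f) (g := g) (hU hx.1)
        have b2 := vv_nonneg (κ := κ) (R := R) (f := f) (g := g) hx.2
        exact mul_nonneg h0.le (by linarith)

end Pool.Agent.L5helper37.PF
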