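import Mathlib
import Pool.Agent.L5helper37.PF.StepR

/-!
# Revealing the valuations of the summand
-/

set_option autoImplicit false

namespace Pool.Agent.L5helper37.PF

open Finset Pool.Agent.Y359.PE
open scoped Classical

lemma cl_sub {α β : Type*} {S : Finset α} {f : α → β} {x : α} : cl S f x ⊆ S :=
  fun _ hy => (mem_cl.1 hy).1

/-- the sum -/
def sm (x : ℤ × ℤ) : ℤ := x.1 + x.2

/-- one prime -/
lemma val_levels {κ : ℝ} (h0 : 0 < κ) (h1 : κ ≤ 1) (p : ℕ) (A B : Finset ℤ)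
    (n : ℝ) (G : ℤ × ℤ → ℝ)
    (hcell : ∀ A' ⊆ A, ∀ B' ⊆ B, ∀ j : ℕ, (∀ a ∈ A', (p : ℤ) ^ j ∣ a ∧ ¬ (p : ℤ) ^ (j + 1) ∣ a) →
      T (A' ×ˢ B') sm ≤ ∑ x ∈ A' ×ˢ B', (κ * Real.log B'.card + CR κ * n + G x)) (J : ℕ)
    (hJ : ∀ a ∈ A, ¬ (p : ℤ) ^ J ∣ a) :
    ∀ i j : ℕ, i + j = J → ∀ A' ⊆ A, ∀ B' ⊆ B, (∀ a ∈ A', (p : ℤ) ^ j ∣ a) →
      T (A' ×ˢ B') sm ≤ ∑ x ∈ A' ×ˢ B', (κ * Real.log B'.card + CR κ * (n + 1) + G x) := by
  intro i
  induction i with
  | zero =>
    intro j hj A' hA' B' hB' hd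
    have : A' = ∅ := by
      rw [eq_empty_iff_forall_notMem]
      intro a ha
      rw [Nat.zero_add] at hj
      subst hj
      exact hJ a (hA' ha) (hd a ha)
    rw [this]
    simp [T]
  | succ i ih =>
    intro j hj A' hA' B' hB' hd
    obtain ⟨w, hw⟩ : ∃ w : ℤ → Prop, ∀ a, w a ↔ ¬ (p : ℤ) ^ (j + 1) ∣ a :=
      ⟨_, fun _ => Iff.rfl⟩
    obtain ⟨g, hgeq⟩ : ∃ g : ℤ → ℤ, ∀ b b' : ℤ, g b = g b' ↔ (p : ℤ) ^ (j + 1) ∣ b' - b :=
      ⟨fun b => b % (p : ℤ) ^ (j + 1), fun b b' => Int.modEq_iff_dvd⟩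
    have hst := stepR h0 h1 A' B' w g sm (fun x _ y _ hxy hx hy => by
      rw [hw, not_not] at hx hy
      rw [hgeq]
      have : y.2 - x.2 = x.1 - y.1 := by
        unfold sm at hxy
        linarith
      rw [this]
      exact dvd_sub hx hy) (fun x _ y _ hxy hgx hx => by
      rw [hw, not_not] at hx ⊢
      rw [hgeq] at hgx
      have : y.1 = x.1 - (y.2 - x.2) := by
        unfold sm at hxy
        linarith
      rw [this]
      exact dvd_sub hx hgx)
    set lab : ℤ × ℤ → Option ℤ := fun x => if w x.1 then none else some (g x.2) with hlab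
    refine (T_cells (A' ×ˢ B') sm lab _ (fun x => if w x.1 then
      κ * Real.log B'.card + CR κ * n + G x else κ * Real.log (fc B' g x.2) + CR κ * (n + 1) + G x)
      hst ?_).trans (le_of_eq ?_)
    · intro x hx
      rw [mem_product] at hx
      by_cases hwx : w x.1
      · have hcl : cl (A' ×ˢ B') lab x = A'.filter w ×ˢ B' := by
          ext y
          rw [mem_cl, mem_product, mem_product, mem_filter, hlab]
          simp only [hwx, if_true]
          by_cases hwy : w y.1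
          · simp [hwy]
          · simp [hwy]
        rw [hcl]
        refine (hcell _ ((filter_subset _ _).trans hA') B' hB' j (fun a ha => ?_)).trans
          (le_of_eq ?_)
        · rw [mem_filter] at ha
          exact ⟨hd a ha.1, (hw a).1 ha.2⟩
        · refine sum_congr rfl fun y hy => ?_
          rw [mem_product, mem_filter] at hy
          rw [if_pos hy.1.2]
      · have hcl : cl (A' ×ˢ B') lab x = (A'.filter fun a => ¬ w a) ×ˢ cl B' g x.2 := by
          ext y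
          rw [mem_cl, mem_product, mem_product, mem_filter, mem_cl, hlab]
          simp only [hwx, if_false]
          by_cases hwy : w y.1
          · simp [hwy]
          · simp [hwy]
            tauto
        rw [hcl]
        refine (ih (j + 1) (by omega) _ ((filter_subset _ _).trans hA') _
          (cl_sub.trans hB') (fun a ha => ?_)).trans (le_of_eq ?_)
        · rw [mem_filter, hw, not_not] at ha
          exact ha.2
        · refine sum_congr rfl fun y hy => ?_
          rw [mem_product, mem_filter, mem_cl] at hy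
          rw [if_neg hy.1.2, fc_congr hy.2.2]
          rfl
    · refine sum_congr rfl fun x _ => ?_
      split_ifs <;> ring

/-- the valuation -/
noncomputable def va (p : ℕ) (a : ℤ) : ℕ := a.natAbs.factorization p

lemma dvd_iff_va {p : ℕ} (hp : p.Prime) {a : ℤ} (ha : a ≠ 0) (j : ℕ) :
    (p : ℤ) ^ j ∣ a ↔ j ≤ va p a := by
  unfold va
  rw [← hp.pow_dvd_iff_le_factorization (Int.natAbs_ne_zero.2 ha), ← Int.natCast_pow,
    Int.natCast_dvd]

lemma va_eq {p : ℕ} (hp : p.Prime) {a : ℤ} (ha : a ≠ 0) {j : ℕ} (h1 : (p : ℤ) ^ j ∣ a)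
    (h2 : ¬ (p : ℤ) ^ (j + 1) ∣ a) : va p a = j := by
  rw [dvd_iff_va hp ha] at h1 h2
  omega

/-- all primes -/
lemma val_all {κ : ℝ} (h0 : 0 < κ) (h1 : κ ≤ 1) (G : ℤ × ℤ → ℝ) :
    ∀ (ps : List ℕ), (∀ p ∈ ps, p.Prime) → ∀ (A B : Finset ℤ), (0 : ℤ) ∉ A →
    (∀ A' ⊆ A, ∀ B' ⊆ B, (∀ a ∈ A', ∀ a' ∈ A', ∀ p ∈ ps, va p a = va p a') →
      T (A' ×ˢ B') sm ≤ ∑ x ∈ A' ×ˢ B', G x) →
    T (A ×ˢ B) sm ≤ ∑ x ∈ A ×ˢ B, (κ * Real.log B.card + CR κ * ps.length + G x) := by
  intro ps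
  induction ps with
  | nil =>
    intro _ A B _ hG
    refine (hG A subset_rfl B subset_rfl (fun a _ a' _ p hp => by simp at hp)).trans
      (sum_le_sum fun x _ => ?_)
    have := Real.log_natCast_nonneg B.card
    have : 0 ≤ κ * Real.log B.card := by positivity
    simp only [List.length_nil, Nat.cast_zero, mul_zero, add_zero]
    linarith
  | cons p ps ih =>
    intro hps A B h0A hG
    have hp : p.Prime := hps p (by simp)
    -- a bound for the exponents
    obtain ⟨J, hJ⟩ : ∃ J : ℕ, ∀ a ∈ A, ¬ (p : ℤ) ^ J ∣ a := by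
      refine ⟨(A.sup fun a => va p a) + 1, fun a ha => ?_⟩
      rw [dvd_iff_va hp (fun h => h0A (h ▸ ha))]
      have := le_sup (f := fun a => va p a) ha
      omega
    have := val_levels h0 h1 p A B ps.length G (fun A' hA' B' hB' j hj => by
      refine ih (fun q hq => hps q (by simp [hq])) A' B' (fun h => h0A (hA' h)) ?_
      intro A'' hA'' B'' hB'' hc
      refine hG A'' (hA''.trans hA') B'' (hB''.trans hB') ?_
      intro a ha a' ha' q hq
      rcases List.mem_cons.1 hq with rfl | hq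
      · have e1 := va_eq hp (fun h => h0A (h ▸ hA' (hA'' ha))) (hj a (hA'' ha)).1
          (hj a (hA'' ha)).2
        have e2 := va_eq hp (fun h => h0A (h ▸ hA' (hA'' ha'))) (hj a' (hA'' ha')).1
          (hj a' (hA'' ha')).2
        rw [e1, e2]
      · exact hc a ha a' ha' q hq) J hJ J 0 (by simp) A subset_rfl B subset_rfl (by simp)
    refine this.trans (le_of_eq (sum_congr rfl fun x _ => ?_))
    rw [List.length_cons]
    push_cast
    ring

/-- **Lemma R.** The valuations of `a` at the primes of a list, given the sum `a + b`. -/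
lemma val_reveal {κ : ℝ} (h0 : 0 < κ) (h1 : κ ≤ 1) (ps : List ℕ) (hps : ∀ p ∈ ps, p.Prime)
    (A B : Finset ℤ) (h0A : (0 : ℤ) ∉ A) {θ : Type*} (τ : ℤ → θ)
    (hτ : ∀ a ∈ A, ∀ a' ∈ A, (∀ p ∈ ps, va p a = va p a') → τ a = τ a') :
    T (A ×ˢ B) sm ≤ ∑ x ∈ A ×ˢ B, (κ * Real.log B.card + CR κ * ps.length +
      Real.log (fc (A ×ˢ B) (fun x => (sm x, τ x.1)) x)) := by
  refine val_all h0 h1 _ ps hps A B h0A fun A' hA' B' hB' hc => ?_
  unfold T
  refine sum_le_sum fun x hx => ?_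
  refine Real.log_le_log (fc_posR hx) ?_
  have : cl (A' ×ˢ B') sm x ⊆ cl (A ×ˢ B) (fun x => (sm x, τ x.1)) x := by
    intro y hy
    rw [mem_cl] at hy ⊢
    rw [mem_product] at hx hy
    rw [mem_product, Prod.mk.injEq]
    exact ⟨⟨hA' hy.1.1, hB' hy.1.2⟩, hy.2, hτ _ (hA' hy.1.1) _ (hA' hx.1)
      (hc _ hy.1.1 _ hx.1)⟩
  exact_mod_cast card_le_card this

end Pool.Agent.L5helper37.PF
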