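import Mathlib
import Pool.Agent.L5helper37.PF.Val
import Pool.Agent.L5helper37.PF.StepD2

/-!
# The digits of the two summands of a dilate sum
-/

set_option autoImplicit false

namespace Pool.Agent.L5helper37.PF

open Finset Pool.Agent.Y359.PE
open scoped Classical

/-- residues -/
def md (p l : ℕ) (a : ℤ) : ℤ := a % (p : ℤ) ^ l

lemma md_eq {p l : ℕ} {a b : ℤ} : md p l a = md p l b ↔ (p : ℤ) ^ l ∣ b - a := Int.modEq_iff_dvd

/-- the dilate sum -/
def st (t : ℤ) (x : ℤ × ℤ) : ℤ := t * x.1 + x.2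

lemma pow_dvd_mul_iff {p : ℕ} (hp : p.Prime) {t : ℤ} (ht : t ≠ 0) {e : ℕ} (he : va p t = e)
    (l : ℕ) (z : ℤ) : (p : ℤ) ^ (e + l) ∣ t * z ↔ (p : ℤ) ^ l ∣ z := by
  have hpi : Prime (p : ℤ) := Nat.prime_iff_prime_int.1 hp
  obtain ⟨t', ht'⟩ := (dvd_iff_va hp ht e).2 he.ge
  have h2 : ¬ (p : ℤ) ∣ t' := by
    rintro ⟨q, hq⟩
    have : (p : ℤ) ^ (e + 1) ∣ t := ⟨q, by rw [ht', hq, pow_succ]; ring⟩
    rw [dvd_iff_va hp ht] at this
    omega
  have hpe : (p : ℤ) ^ e ≠ 0 := pow_ne_zero _ hpi.ne_zero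
  rw [ht', mul_assoc, pow_add, mul_dvd_mul_iff_left hpe]
  exact ⟨fun h => hpi.pow_dvd_of_dvd_mul_left l h2 h, fun h => h.mul_left _⟩

lemma st_P1 {p : ℕ} (hp : p.Prime) {t : ℤ} (ht : t ≠ 0) {e : ℕ} (he : va p t = e)
    (l : ℕ) {x y : ℤ × ℤ} (h : st t x = st t y) :
    md p l x.1 = md p l y.1 ↔ md p (e + l) x.2 = md p (e + l) y.2 := by
  rw [md_eq, md_eq]
  have : y.2 - x.2 = t * -(y.1 - x.1) := by
    unfold st at h
    linarith
  rw [this, pow_dvd_mul_iff hp ht he, dvd_neg]

lemma fc_st_le {t : ℤ} (ht : t ≠ 0) (U V : Finset ℤ) (x : ℤ × ℤ) :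
    fc (U ×ˢ V) (st t) x ≤ V.card := by
  unfold fc
  refine card_le_card_of_injOn Prod.snd (fun y hy => ?_) fun y hy y' hy' h => ?_
  · have := mem_cl.1 hy
    exact (mem_product.1 this.1).2
  · have h1 := (mem_cl.1 hy).2
    have h2 := (mem_cl.1 hy').2
    rw [← h2] at h1
    unfold st at h1
    rw [h] at h1
    have h3 : t * y.1 = t * y'.1 := by linarith
    exact Prod.ext (mul_left_cancel₀ ht h3) h

/-- the levels of a prime -/
noncomputable def lev (κ : ℝ) (p e : ℕ) (cont : Finset ℤ → Finset ℤ → ℤ × ℤ → ℝ) :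
    ℕ → ℕ → Finset ℤ → Finset ℤ → ℤ × ℤ → ℝ
  | 0, _, _, _, _ => 0
  | n + 1, l, R, V, w =>
    if Wd R (md p (l + 1)) (cu κ) w.1 ∧ Wd V (md p (e + (l + 1))) (cv κ) w.2 then
      cont (Rn κ R V (md p (l + 1)) (md p (e + (l + 1))) w)
        (Vn κ R V (md p (l + 1)) (md p (e + (l + 1))) w) w
    else lev κ p e cont n (l + 1) (Rn κ R V (md p (l + 1)) (md p (e + (l + 1))) w)
        (Vn κ R V (md p (l + 1)) (md p (e + (l + 1))) w) w

/-- the badness -/
noncomputable def bad (κ : ℝ) (N : ℕ) (e : ℕ → ℕ) :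
    List ℕ → Finset ℤ → Finset ℤ → ℤ × ℤ → ℝ
  | [], _, _, _ => 1
  | p :: ps, R, V, w => lev κ p (e p) (bad κ N e ps) N 0 R (cl V (md p (e p)) w.2) w

lemma lev_bound {κ : ℝ} (h0 : 0 < κ) (h1 : κ ≤ 1) {p : ℕ} (hp : p.Prime) {t : ℤ} (ht : t ≠ 0)
    {e : ℕ} (he : va p t = e) {Λ : ℝ} (cont : Finset ℤ → Finset ℤ → ℤ × ℤ → ℝ)
    (R₀ V₀ : Finset ℤ) (hcont : ∀ R U V : Finset ℤ, U ⊆ R → R ⊆ R₀ → V ⊆ V₀ →
      T (U ×ˢ V) (st t) ≤ ∑ w ∈ U ×ˢ V,
        (κ * (Real.log R.card + Real.log V.card) + Λ * cont R V w))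
    {N : ℕ} (hN : ∀ u ∈ R₀, ∀ u' ∈ R₀, md p N u = md p N u' → u = u') :
    ∀ n l : ℕ, n + l = N → ∀ R U V : Finset ℤ, U ⊆ R → R ⊆ R₀ → V ⊆ V₀ →
      (∀ u ∈ R, ∀ u' ∈ R, md p l u = md p l u') →
      T (U ×ˢ V) (st t) ≤ ∑ w ∈ U ×ˢ V,
        (κ * (Real.log R.card + Real.log V.card) + Λ * lev κ p e cont n l R V w) := by
  intro n
  induction n with
  | zero =>
    intro l hl R U V hU hR hV hc
    rw [Nat.zero_add] at hl
    subst hl
    have h2 : T (U ×ˢ V) (st t) = 0 := by
      unfold T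
      refine sum_eq_zero fun w hw => ?_
      have : fc (U ×ˢ V) (st t) w = 1 := by
        unfold fc
        rw [card_eq_one]
        refine ⟨w, ?_⟩
        ext y
        rw [mem_cl, mem_singleton]
        constructor
        · rintro ⟨h3, h4⟩
          rw [mem_product] at h3 hw
          have h5 : y.1 = w.1 := hN _ (hR (hU h3.1)) _ (hR (hU hw.1))
            (hc _ (hU h3.1) _ (hU hw.1))
          unfold st at h4
          rw [h5] at h4
          exact Prod.ext h5 (by linarith)
        · rintro rfl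
          exact ⟨hw, rfl⟩
      rw [this, Nat.cast_one, Real.log_one]
    rw [h2]
    refine sum_nonneg fun w _ => ?_
    have h3 := Real.log_natCast_nonneg R.card
    have h4 := Real.log_natCast_nonneg V.card
    unfold lev
    rw [mul_zero, add_zero]
    positivity
  | succ n ih =>
    intro l hl R U V hU hR hV hc
    obtain ⟨f, hf⟩ : ∃ f, f = md p (l + 1) := ⟨_, rfl⟩
    obtain ⟨g, hg⟩ : ∃ g, g = md p (e + (l + 1)) := ⟨_, rfl⟩
    have hst := stepD h0 h1 R U V hU f g (st t) (fun x _ y _ hxy => by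
      rw [hf, hg]
      exact st_P1 hp ht he (l + 1) hxy)
    have hlev : ∀ w, lev κ p e cont (n + 1) l R V w =
        if Wd R f (cu κ) w.1 ∧ Wd V g (cv κ) w.2 then cont (Rn κ R V f g w) (Vn κ R V f g w) w
        else lev κ p e cont n (l + 1) (Rn κ R V f g w) (Vn κ R V f g w) w := by
      intro w
      rw [hf, hg]
      rfl
    refine (T_cells (U ×ˢ V) (st t) (labD κ R V f g) _ (fun w =>
      κ * (Real.log (Rn κ R V f g w).card + Real.log (Vn κ R V f g w).card) +
      Λ * lev κ p e cont (n + 1) l R V w) hst ?_).trans (le_of_eq ?_)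
    · intro w hw
      rw [mem_product] at hw
      by_cases hW : Wd R f (cu κ) w.1 ∧ Wd V g (cv κ) w.2
      · have hcl : cl (U ×ˢ V) (labD κ R V f g) w =
            U.filter (Wd R f (cu κ)) ×ˢ V.filter (Wd V g (cv κ)) := by
          ext y
          rw [mem_cl, mem_product, mem_product, mem_filter, mem_filter]
          unfold labD
          rw [if_pos hW]
          by_cases hy : Wd R f (cu κ) y.1 ∧ Wd V g (cv κ) y.2
          · rw [if_pos hy]
            exact ⟨fun h => ⟨⟨h.1.1, hy.1⟩, h.1.2, hy.2⟩, fun h => ⟨⟨h.1.1, h.2.1⟩, rfl⟩⟩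
          · rw [if_neg hy]
            exact ⟨fun h => by simp at h, fun h => absurd ⟨h.1.2, h.2.2⟩ hy⟩
        rw [hcl]
        refine (hcont (R.filter (Wd R f (cu κ))) _ (V.filter (Wd V g (cv κ)))
          (filter_subset_filter _ hU) ((filter_subset _ _).trans hR)
          ((filter_subset _ _).trans hV)).trans (le_of_eq ?_)
        refine sum_congr rfl fun y hy => ?_
        rw [mem_product, mem_filter, mem_filter] at hy
        have hy' : Wd R f (cu κ) y.1 ∧ Wd V g (cv κ) y.2 := ⟨hy.1.2, hy.2.2⟩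
        rw [hlev, if_pos hy']
        unfold Rn Vn
        rw [if_pos hy', if_pos hy']
      · have hcl : cl (U ×ˢ V) (labD κ R V f g) w = cl U f w.1 ×ˢ cl V g w.2 := by
          ext y
          rw [mem_cl, mem_product, mem_product, mem_cl, mem_cl]
          unfold labD
          rw [if_neg hW]
          constructor
          · rintro ⟨h2, h3⟩
            split_ifs at h3
            rw [Option.some.injEq, Prod.mk.injEq] at h3
            exact ⟨⟨h2.1, h3.1⟩, h2.2, h3.2⟩
          · rintro ⟨h2, h3⟩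
            refine ⟨⟨h2.1, h3.1⟩, ?_⟩
            rw [if_neg, h2.2, h3.2]
            rw [Wd_congr h2.2, Wd_congr h3.2]
            exact hW
        rw [hcl]
        refine (ih (l + 1) (by omega) (cl R f w.1) _ (cl V g w.2) ?_ (cl_sub.trans hR)
          (cl_sub.trans hV) ?_).trans (le_of_eq ?_)
        · intro u hu
          rw [mem_cl] at hu ⊢
          exact ⟨hU hu.1, hu.2⟩
        · intro u hu u' hu'
          rw [mem_cl, hf] at hu hu'
          exact hu.2.trans hu'.2.symm
        · refine sum_congr rfl fun y hy => ?_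
          rw [mem_product, mem_cl, mem_cl] at hy
          have hy' : ¬ (Wd R f (cu κ) y.1 ∧ Wd V g (cv κ) y.2) := by
            rw [Wd_congr hy.1.2, Wd_congr hy.2.2]
            exact hW
          rw [hlev, if_neg hy']
          have e1 : Rn κ R V f g y = cl R f w.1 := by
            unfold Rn
            rw [if_neg hy', cl_congr hy.1.2]
          have e2 : Vn κ R V f g y = cl V g w.2 := by
            unfold Vn
            rw [if_neg hy', cl_congr hy.2.2]
          rw [e1, e2]
    · refine sum_congr rfl fun w _ => ?_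
      unfold rr vv
      ring

/-- **The loss of a dilate sum.** -/
lemma stage {κ : ℝ} (h0 : 0 < κ) (h1 : κ ≤ 1) {t : ℤ} (ht : t ≠ 0) (e : ℕ → ℕ)
    (R₀ V₀ : Finset ℤ) (N : ℕ) :
    ∀ ps : List ℕ, (∀ p ∈ ps, p.Prime) → (∀ p ∈ ps, va p t = e p) →
    (∀ p ∈ ps, ∀ u ∈ R₀, ∀ u' ∈ R₀, md p N u = md p N u' → u = u') →
    ∀ R U V : Finset ℤ, U ⊆ R → R ⊆ R₀ → V ⊆ V₀ →
      T (U ×ˢ V) (st t) ≤ ∑ w ∈ U ×ˢ V,
        (κ * (Real.log R.card + Real.log V.card) + Real.log V₀.card * bad κ N e ps R V w) := by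
  intro ps
  induction ps with
  | nil =>
    intro _ _ _ R U V _ _ hV
    unfold T
    refine sum_le_sum fun w hw => ?_
    have h2 := fc_posR (f := st t) hw
    have h3 : (fc (U ×ˢ V) (st t) w : ℝ) ≤ V₀.card := by
      exact_mod_cast (fc_st_le ht U V w).trans (card_le_card hV)
    have h4 := Real.log_le_log h2 h3
    have h5 := Real.log_natCast_nonneg R.card
    have h6 := Real.log_natCast_nonneg V.card
    have : 0 ≤ κ * (Real.log R.card + Real.log V.card) := by positivity
    unfold bad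
    linarith
  | cons p ps ih =>
    intro hps hva hN R U V hU hR hV
    have hp : p.Prime := hps p (by simp)
    have he : va p t = e p := hva p (by simp)
    refine (T_cells (U ×ˢ V) (st t) (fun w => md p (e p) w.2) (fun _ => 0) (fun w =>
      κ * (Real.log R.card + Real.log V.card) +
      Real.log V₀.card * bad κ N e (p :: ps) R V w) ?_ ?_).trans (le_of_eq ?_)
    · refine sum_le_sum fun w hw => ?_
      have h2 : fc (U ×ˢ V) (st t) w ≤ fc (U ×ˢ V) (fun w => (st t w, md p (e p) w.2)) w := by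
        refine fc_le_of_imp fun y _ hyw => ?_
        rw [Prod.mk.injEq]
        refine ⟨hyw, ?_⟩
        have := (st_P1 hp ht he 0 hyw).1 (by rw [md_eq]; simp)
        rwa [add_zero] at this
      have h3 := Real.log_le_log (fc_posR (f := st t) hw) (by exact_mod_cast h2 :
        (fc (U ×ˢ V) (st t) w : ℝ) ≤ fc (U ×ˢ V) (fun w => (st t w, md p (e p) w.2)) w)
      linarith
    · intro w hw
      rw [mem_product] at hw
      have hcl : cl (U ×ˢ V) (fun w => md p (e p) w.2) w = U ×ˢ cl V (md p (e p)) w.2 := by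
        ext y
        rw [mem_cl, mem_product, mem_product, mem_cl]
        tauto
      rw [hcl]
      refine (lev_bound h0 h1 hp ht he (Λ := Real.log V₀.card) (bad κ N e ps) R₀ V₀
        (ih (fun q hq => hps q (by simp [hq])) (fun q hq => hva q (by simp [hq]))
          (fun q hq => hN q (by simp [hq])))
        (hN p (by simp)) N 0 (by simp) R U (cl V (md p (e p)) w.2) hU hR (cl_sub.trans hV)
        (fun u _ u' _ => by rw [md_eq]; simp)).trans (sum_le_sum fun y hy => ?_)
      rw [mem_product, mem_cl] at hy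
      have h2 : bad κ N e (p :: ps) R V y =
          lev κ p (e p) (bad κ N e ps) N 0 R (cl V (md p (e p)) w.2) y := by
        change lev κ p (e p) (bad κ N e ps) N 0 R (cl V (md p (e p)) y.2) y = _
        rw [cl_congr hy.2.2]
      rw [h2]
      have h3 : (0 : ℝ) < (cl V (md p (e p)) w.2).card := by
        exact_mod_cast card_pos.2 ⟨_, mem_cl.2 ⟨hw.2, rfl⟩⟩
      have h4 : ((cl V (md p (e p)) w.2).card : ℝ) ≤ V.card := by
        exact_mod_cast card_le_card cl_sub
      have h5 := mul_le_mul_of_nonneg_left (Real.log_le_log h3 h4) h0.le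
      linarith
    · refine sum_congr rfl fun w _ => ?_
      ring

end Pool.Agent.L5helper37.PF
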