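import Mathlib
import Pool.Agent.L5helper37.PF.Stage

/-!
# Few of the exponent vectors are bad
-/

set_option autoImplicit false

namespace Pool.Agent.L5helper37.PF

open Finset Pool.Agent.Y359.PE
open scoped Classical

lemma lev_nonneg {κ : ℝ} {p e : ℕ} {cont : Finset ℤ → Finset ℤ → ℤ × ℤ → ℝ}
    (hc : ∀ R V w, 0 ≤ cont R V w) : ∀ (n l : ℕ) (R V : Finset ℤ) (w : ℤ × ℤ),
    0 ≤ lev κ p e cont n l R V w := by
  intro n
  induction n with
  | zero => intro l R V w; exact le_rfl
  | succ n ih =>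
    intro l R V w
    unfold lev
    split_ifs
    · exact hc _ _ _
    · exact ih _ _ _ _

lemma bad_nonneg {κ : ℝ} {N : ℕ} {e : ℕ → ℕ} : ∀ (ps : List ℕ) (R V : Finset ℤ) (w : ℤ × ℤ),
    0 ≤ bad κ N e ps R V w := by
  intro ps
  induction ps with
  | nil => intro R V w; exact zero_le_one
  | cons p ps ih =>
    intro R V w
    exact lev_nonneg ih _ _ _ _ _

/-- the class modulo `p ^ l` -/
noncomputable def Rl (p l : ℕ) (R : Finset ℤ) (u : ℤ) : Finset ℤ := cl R (md p l) u

/-- a step which is not almost determined -/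
def WW (c : ℝ) (p l : ℕ) (R : Finset ℤ) (u : ℤ) : Prop := Wd (Rl p l R u) (md p (l + 1)) c u

/-- the elements for which the step is not almost determined -/
noncomputable def Rf (c : ℝ) (p l : ℕ) (R : Finset ℤ) (u : ℤ) : Finset ℤ :=
  (Rl p l R u).filter (Wd (Rl p l R u) (md p (l + 1)) c)

lemma Rl_zero (p : ℕ) (R : Finset ℤ) (u : ℤ) : Rl p 0 R u = R := by
  unfold Rl
  ext y
  rw [mem_cl, md_eq]
  simp

lemma md_mono {p l l' : ℕ} (h : l ≤ l') {a b : ℤ} (hab : md p l' a = md p l' b) :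
    md p l a = md p l b := by
  rw [md_eq] at hab ⊢
  exact (pow_dvd_pow _ h).trans hab

lemma cl_Rl (p l : ℕ) (R : Finset ℤ) (u : ℤ) :
    cl (Rl p l R u) (md p (l + 1)) u = Rl p (l + 1) R u := by
  unfold Rl
  ext y
  rw [mem_cl, mem_cl, mem_cl]
  exact ⟨fun h => ⟨h.1.1, h.2⟩, fun h => ⟨⟨h.1, md_mono (Nat.le_succ l) h.2⟩, h.2⟩⟩

lemma mem_Rl {p l : ℕ} {R : Finset ℤ} {u : ℤ} (hu : u ∈ R) : u ∈ Rl p l R u :=
  mem_cl.2 ⟨hu, rfl⟩

/-- unrolling the levels -/
lemma lev_unroll {κ : ℝ} {p e : ℕ} {cont : Finset ℤ → Finset ℤ → ℤ × ℤ → ℝ}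
    (hc : ∀ R V w, 0 ≤ cont R V w) (R V : Finset ℤ) (w : ℤ × ℤ) : ∀ n l : ℕ,
    lev κ p e cont n l (Rl p l R w.1) (Rl p (e + l) V w.2) w ≤
      ∑ i ∈ Ico l (l + n), (if WW (cu κ) p i R w.1 ∧ WW (cv κ) p (e + i) V w.2 then
        cont (Rf (cu κ) p i R w.1) (Rf (cv κ) p (e + i) V w.2) w else 0) := by
  intro n
  induction n with
  | zero =>
    intro l
    simp [lev]
  | succ n ih =>
    intro l
    have hnn : ∀ i, 0 ≤ (if WW (cu κ) p i R w.1 ∧ WW (cv κ) p (e + i) V w.2 then
        cont (Rf (cu κ) p i R w.1) (Rf (cv κ) p (e + i) V w.2) w else 0) := by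
      intro i
      split_ifs
      · exact hc _ _ _
      · exact le_rfl
    rw [← sum_Ioo_add_eq_sum_Ico (by omega : l < l + (n + 1))]
    by_cases h : WW (cu κ) p l R w.1 ∧ WW (cv κ) p (e + l) V w.2
    · have e1 : lev κ p e cont (n + 1) l (Rl p l R w.1) (Rl p (e + l) V w.2) w =
          cont (Rf (cu κ) p l R w.1) (Rf (cv κ) p (e + l) V w.2) w := by
        unfold lev
        have h' : Wd (Rl p l R w.1) (md p (l + 1)) (cu κ) w.1 ∧
            Wd (Rl p (e + l) V w.2) (md p (e + (l + 1))) (cv κ) w.2 := h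
        rw [if_pos h']
        unfold Rn Vn
        rw [if_pos h', if_pos h']
        rfl
      rw [e1, if_pos h]
      have := sum_nonneg (s := Ioo l (l + (n + 1))) (fun i _ => hnn i)
      linarith
    · have e1 : lev κ p e cont (n + 1) l (Rl p l R w.1) (Rl p (e + l) V w.2) w =
          lev κ p e cont n (l + 1) (Rl p (l + 1) R w.1) (Rl p (e + (l + 1)) V w.2) w := by
        rw [lev]
        have h' : ¬ (Wd (Rl p l R w.1) (md p (l + 1)) (cu κ) w.1 ∧
            Wd (Rl p (e + l) V w.2) (md p (e + (l + 1))) (cv κ) w.2) := h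
        rw [if_neg h']
        unfold Rn Vn
        rw [if_neg h', if_neg h', cl_Rl]
        have := cl_Rl p (e + l) V w.2
        change cl (Rl p (e + l) V w.2) (md p (e + (l + 1))) w.2 = _ at this
        rw [this]
        rfl
      rw [e1, if_neg h, add_zero]
      refine (ih (l + 1)).trans (le_of_eq ?_)
      refine sum_congr ?_ fun _ _ => rfl
      ext i
      rw [mem_Ico, mem_Ioo]
      omega

/-- the constant of the geometric sums -/
noncomputable def Kc (θ c : ℝ) : ℝ := 1 / (1 - (1 - c) ^ θ)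

lemma rpow_lt {θ c : ℝ} (hθ : 0 < θ) (hc0 : 0 < c) (hc1 : c < 1) : (1 - c) ^ θ < 1 :=
  Real.rpow_lt_one (by linarith) (by linarith) hθ

lemma Kc_ge {θ c : ℝ} (hθ : 0 < θ) (hc0 : 0 < c) (hc1 : c < 1) : 1 ≤ Kc θ c := by
  unfold Kc
  have h1 := rpow_lt hθ hc0 hc1
  have h2 : 0 < (1 - c) ^ θ := Real.rpow_pos_of_pos (by linarith) _
  rw [le_div_iff₀ (by linarith)]
  linarith

/-- **geometric sums** -/
lemma geo {θ c : ℝ} (hθ : 0 < θ) (hc0 : 0 < c) (hc1 : c < 1) (p : ℕ) (V : Finset ℤ) (b : ℤ) :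
    ∀ n l : ℕ, ∑ j ∈ Ico l (l + n), (if WW c p j V b then
      ((Rl p j V b).card : ℝ) ^ θ else 0) ≤ Kc θ c * ((Rl p l V b).card : ℝ) ^ θ := by
  intro n
  have hK := Kc_ge hθ hc0 hc1
  induction n with
  | zero =>
    intro l
    simp only [add_zero, Ico_self, sum_empty]
    positivity
  | succ n ih =>
    intro l
    rw [← sum_Ioo_add_eq_sum_Ico (by omega : l < l + (n + 1))]
    have h1 : ∑ j ∈ Ioo l (l + (n + 1)), (if WW c p j V b then
        ((Rl p j V b).card : ℝ) ^ θ else 0) ≤ Kc θ c * ((Rl p (l + 1) V b).card : ℝ) ^ θ := by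
      refine le_trans (le_of_eq ?_) (ih (l + 1))
      refine sum_congr ?_ fun _ _ => rfl
      ext i
      rw [mem_Ico, mem_Ioo]
      omega
    have h2 : ((Rl p (l + 1) V b).card : ℝ) ≤ (Rl p l V b).card := by
      rw [← cl_Rl]
      exact_mod_cast card_le_card cl_sub
    by_cases h : WW c p l V b
    · rw [if_pos h]
      have h3 : ((Rl p (l + 1) V b).card : ℝ) ≤ (1 - c) * (Rl p l V b).card := by
        rw [← cl_Rl]
        exact h.le
      have h4 : ((Rl p (l + 1) V b).card : ℝ) ^ θ ≤ (1 - c) ^ θ * ((Rl p l V b).card : ℝ) ^ θ := by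
        rw [← Real.mul_rpow (by linarith) (by positivity)]
        exact Real.rpow_le_rpow (by positivity) h3 hθ.le
      have h5 : Kc θ c * (1 - (1 - c) ^ θ) = 1 := by
        unfold Kc
        have := rpow_lt hθ hc0 hc1
        rw [one_div, inv_mul_cancel₀ (by linarith)]
      have h6 := mul_le_mul_of_nonneg_left h4 (show 0 ≤ Kc θ c by linarith)
      have h7 : Kc θ c * ((Rl p l V b).card : ℝ) ^ θ = (Kc θ c * (1 - (1 - c) ^ θ)) *
          ((Rl p l V b).card : ℝ) ^ θ + Kc θ c * ((1 - c) ^ θ * ((Rl p l V b).card : ℝ) ^ θ) := by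
        ring
      rw [h7, h5]
      linarith
    · rw [if_neg h, add_zero]
      refine h1.trans (mul_le_mul_of_nonneg_left ?_ (by linarith))
      exact Real.rpow_le_rpow (by positivity) h2 hθ.le

/-- **Few bad exponents.** -/
lemma count {ι : Type*} {κ : ℝ} (h0 : 0 < κ) (h1 : κ ≤ 1) {θ : ℝ} (hθ : 0 < θ) (N : ℕ)
    (e : ι → ℕ → ℕ) : ∀ (ps : List ℕ) (F : Finset ι),
    (∀ i ∈ F, ∀ i' ∈ F, (∀ p ∈ ps, e i p = e i' p) → i = i') →
    ∀ (R V : Finset ℤ) (w : ℤ × ℤ), w.1 ∈ R → w.2 ∈ V →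
      ∑ i ∈ F, bad κ N (e i) ps R V w ≤
        (Kc θ (cu κ) * Kc θ (cv κ)) ^ ps.length * ((R.card : ℝ) ^ θ * (V.card : ℝ) ^ θ) := by
  have hcu := cu_le h0 h1
  have hcv := cv_le h0 h1
  have hcu0 := cu_pos κ
  have hcv0 := cv_pos κ
  have hK1 := Kc_ge hθ hcu0 (by linarith)
  have hK2 := Kc_ge hθ hcv0 (by linarith)
  set K := Kc θ (cu κ) * Kc θ (cv κ) with hK
  have hK0 : 0 < K := by positivity
  intro ps
  induction ps with
  | nil =>
    intro F hF R V w hw1 hw2
    have h2 : F.card ≤ 1 := card_le_one.2 fun i hi i' hi' => hF i hi i' hi' (by simp)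
    have h3 : ∑ i ∈ F, bad κ N (e i) [] R V w = F.card := by
      simp [bad]
    rw [h3, List.length_nil, pow_zero, one_mul]
    have h4 : (1 : ℝ) ≤ R.card := by exact_mod_cast card_pos.2 ⟨_, hw1⟩
    have h5 : (1 : ℝ) ≤ V.card := by exact_mod_cast card_pos.2 ⟨_, hw2⟩
    have h6 : (F.card : ℝ) ≤ 1 := by exact_mod_cast h2
    have h7 := Real.one_le_rpow h4 hθ.le
    have h8 := Real.one_le_rpow h5 hθ.le
    nlinarith
  | cons p ps ih =>
    intro F hF R V w hw1 hw2
    -- unroll
    have u1 : ∀ i ∈ F, bad κ N (e i) (p :: ps) R V w ≤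
        ∑ l ∈ Ico 0 (0 + N), (if WW (cu κ) p l R w.1 ∧ WW (cv κ) p (e i p + l) V w.2 then
        bad κ N (e i) ps (Rf (cu κ) p l R w.1) (Rf (cv κ) p (e i p + l) V w.2) w else 0) := by
      intro i _
      have := lev_unroll (κ := κ) (p := p) (e := e i p) (cont := bad κ N (e i) ps)
        (fun R V w => bad_nonneg ps R V w) R V w N 0
      rw [Rl_zero] at this
      exact this
    refine (sum_le_sum u1).trans ?_
    rw [sum_comm]
    -- the range of the second level
    set J : ℕ := (F.sup fun i => e i p) + N + 1 with hJ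
    have u2 : ∀ l ∈ Ico 0 (0 + N), ∑ i ∈ F, (if WW (cu κ) p l R w.1 ∧
        WW (cv κ) p (e i p + l) V w.2 then bad κ N (e i) ps (Rf (cu κ) p l R w.1)
        (Rf (cv κ) p (e i p + l) V w.2) w else 0) ≤
        ∑ j ∈ Ico 0 (0 + J), K ^ ps.length * ((if WW (cu κ) p l R w.1 then
          ((Rl p l R w.1).card : ℝ) ^ θ else 0) * (if WW (cv κ) p j V w.2 then
          ((Rl p j V w.2).card : ℝ) ^ θ else 0)) := by
      intro l hl
      rw [mem_Ico] at hl
      rw [← sum_fiberwise_of_maps_to (g := fun i => e i p + l) (t := Ico 0 (0 + J))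
        (fun i hi => by
          have := le_sup (f := fun i => e i p) hi
          rw [mem_Ico]
          omega)]
      refine sum_le_sum fun j _ => ?_
      have e1 : ∑ i ∈ F.filter (fun i => e i p + l = j), (if WW (cu κ) p l R w.1 ∧
          WW (cv κ) p (e i p + l) V w.2 then bad κ N (e i) ps (Rf (cu κ) p l R w.1)
          (Rf (cv κ) p (e i p + l) V w.2) w else 0) =
          ∑ i ∈ F.filter (fun i => e i p + l = j), (if WW (cu κ) p l R w.1 ∧
          WW (cv κ) p j V w.2 then bad κ N (e i) ps (Rf (cu κ) p l R w.1)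
          (Rf (cv κ) p j V w.2) w else 0) := by
        refine sum_congr rfl fun i hi => ?_
        rw [(mem_filter.1 hi).2]
      rw [e1]
      by_cases ha : WW (cu κ) p l R w.1
      · by_cases hb : WW (cv κ) p j V w.2
        · rw [if_pos ha, if_pos hb]
          simp only [ha, hb, and_self, if_true]
          refine (ih (F.filter fun i => e i p + l = j) (fun i hi i' hi' h => ?_)
            (Rf (cu κ) p l R w.1) (Rf (cv κ) p j V w.2) w
            (mem_filter.2 ⟨mem_Rl hw1, ha⟩) (mem_filter.2 ⟨mem_Rl hw2, hb⟩)).trans ?_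
          · rw [mem_filter] at hi hi'
            refine hF i hi.1 i' hi'.1 fun q hq => ?_
            rcases List.mem_cons.1 hq with rfl | hq
            · omega
            · exact h q hq
          · refine mul_le_mul_of_nonneg_left ?_ (by positivity)
            have g1 : ((Rf (cu κ) p l R w.1).card : ℝ) ≤ (Rl p l R w.1).card := by
              exact_mod_cast card_le_card (filter_subset _ _)
            have g2 : ((Rf (cv κ) p j V w.2).card : ℝ) ≤ (Rl p j V w.2).card := by
              exact_mod_cast card_le_card (filter_subset _ _)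
            have g3 := Real.rpow_le_rpow (by positivity) g1 hθ.le
            have g4 := Real.rpow_le_rpow (by positivity) g2 hθ.le
            exact mul_le_mul g3 g4 (by positivity) (by positivity)
        · simp [hb]
      · simp [ha]
    refine (sum_le_sum u2).trans ?_
    have e2 : ∑ l ∈ Ico 0 (0 + N), ∑ j ∈ Ico 0 (0 + J), K ^ ps.length *
        ((if WW (cu κ) p l R w.1 then ((Rl p l R w.1).card : ℝ) ^ θ else 0) *
        (if WW (cv κ) p j V w.2 then ((Rl p j V w.2).card : ℝ) ^ θ else 0)) =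
        K ^ ps.length * ((∑ l ∈ Ico 0 (0 + N), (if WW (cu κ) p l R w.1 then
          ((Rl p l R w.1).card : ℝ) ^ θ else 0)) * ∑ j ∈ Ico 0 (0 + J),
          (if WW (cv κ) p j V w.2 then ((Rl p j V w.2).card : ℝ) ^ θ else 0)) := by
      rw [sum_mul_sum, mul_sum]
      refine sum_congr rfl fun l _ => ?_
      rw [mul_sum]
    rw [e2]
    have g1 := geo hθ hcu0 (by linarith) p R w.1 N 0
    have g2 := geo hθ hcv0 (by linarith) p V w.2 J 0
    rw [Rl_zero] at g1 g2
    have hnn2 : 0 ≤ ∑ j ∈ Ico 0 (0 + J),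
        (if WW (cv κ) p j V w.2 then ((Rl p j V w.2).card : ℝ) ^ θ else 0) := by
      refine sum_nonneg fun j _ => ?_
      split_ifs <;> positivity
    have g3 := mul_le_mul g1 g2 hnn2 (by positivity)
    have g4 := mul_le_mul_of_nonneg_left g3 (show 0 ≤ K ^ ps.length by positivity)
    refine g4.trans (le_of_eq ?_)
    rw [List.length_cons, pow_succ, hK]
    ring

end Pool.Agent.L5helper37.PF
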