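import Mathlib
import Pool.Agent.L5helper37.PF.CountBad
import Pool.Agent.Y359.PE.Dich

/-!
# Sums of a set with long fibres along a set of primes
-/

set_option autoImplicit false

namespace Pool.Agent.L5helper37.PF

open Finset Pool.Agent.Y359.PE
open scoped Classical Pointwise

variable {α β γ δ : Type*}

/-- the `P`-part of an integer -/
noncomputable def tt (P : Finset ℕ) (a : ℤ) : ℤ := ∏ p ∈ P, (p : ℤ) ^ va p a

/-- the cofactor -/
noncomputable def uu (P : Finset ℕ) (a : ℤ) : ℤ := a / tt P a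

lemma tt_pos {P : Finset ℕ} (hP : ∀ p ∈ P, p.Prime) (a : ℤ) : 0 < tt P a :=
  prod_pos fun p hp => pow_pos (by exact_mod_cast (hP p hp).pos) _

lemma tt_cast (P : Finset ℕ) (a : ℤ) : tt P a = ((∏ p ∈ P, p ^ va p a : ℕ) : ℤ) := by
  unfold tt
  push_cast
  rfl

lemma tt_dvd {P : Finset ℕ} (hP : ∀ p ∈ P, p.Prime) {a : ℤ} (ha : a ≠ 0) : tt P a ∣ a := by
  refine Finset.prod_dvd_of_coprime ?_ ?_
  · intro p hp q hq hpq
    refine IsCoprime.pow ?_
    exact Nat.isCoprime_iff_coprime.2 ((Nat.coprime_primes (hP p hp) (hP q hq)).2 hpq)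
  · intro p hp
    exact (dvd_iff_va (hP p hp) ha _).2 le_rfl

lemma tt_mul_uu {P : Finset ℕ} (hP : ∀ p ∈ P, p.Prime) {a : ℤ} (ha : a ≠ 0) :
    tt P a * uu P a = a := Int.mul_ediv_cancel' (tt_dvd hP ha)

lemma va_tt {P : Finset ℕ} (hP : ∀ p ∈ P, p.Prime) (a : ℤ) {p : ℕ} (hp : p ∈ P) :
    va p (tt P a) = va p a := by
  have h := fact_prod P hP (fun q => va q a) p
  rw [if_pos hp] at h
  unfold va at h ⊢
  rw [tt_cast, Int.natAbs_natCast]
  exact h

lemma tt_tt {P : Finset ℕ} (hP : ∀ p ∈ P, p.Prime) {a a' : ℤ}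
    (h : ∀ p ∈ P, va p (tt P a) = va p (tt P a')) : tt P a = tt P a' := by
  unfold tt
  refine prod_congr rfl fun p hp => ?_
  have := h p hp
  rw [va_tt hP a hp, va_tt hP a' hp] at this
  rw [this]

lemma T_image [DecidableEq β] (S : Finset α) (φ : α → β) (hφ : Set.InjOn φ S) (s : β → γ) :
    T (S.image φ) s = T S (fun x => s (φ x)) := by
  unfold T
  rw [sum_image hφ]
  refine sum_congr rfl fun x _ => ?_
  congr 2
  unfold fc
  have : cl (S.image φ) s (φ x) = (cl S (fun x => s (φ x)) x).image φ := by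
    ext y
    rw [mem_cl, mem_image, mem_image]
    constructor
    · rintro ⟨⟨z, hz, rfl⟩, h⟩
      exact ⟨z, mem_cl.2 ⟨hz, h⟩, rfl⟩
    · rintro ⟨z, hz, rfl⟩
      rw [mem_cl] at hz
      exact ⟨⟨z, hz.1, rfl⟩, hz.2⟩
  rw [this]
  exact card_image_of_injOn (hφ.mono fun y hy => (mem_cl.1 hy).1)

lemma sum_fiber [DecidableEq δ] (S : Finset α) (s : α → γ) (τ : α → δ) (F : Finset δ) (hF : ∀ x ∈ S, τ x ∈ F) :
    ∑ x ∈ S, Real.log (fc S (fun x => (s x, τ x)) x) =
      ∑ t ∈ F, T (S.filter fun x => τ x = t) s := by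
  rw [← sum_fiberwise_of_maps_to hF]
  refine sum_congr rfl fun t _ => ?_
  unfold T
  refine sum_congr rfl fun x hx => ?_
  rw [mem_filter] at hx
  congr 2
  unfold fc
  congr 1
  ext y
  rw [mem_cl, mem_cl, mem_filter, Prod.mk.injEq, hx.2]
  tauto

/-- a large exponent separates -/
lemma exists_sep (R : Finset ℤ) : ∃ N : ℕ, ∀ p : ℕ, 2 ≤ p → ∀ u ∈ R, ∀ u' ∈ R,
    md p N u = md p N u' → u = u' := by
  refine ⟨(R ×ˢ R).sup fun x => (x.2 - x.1).natAbs, fun p hp u hu u' hu' h => ?_⟩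
  set N := (R ×ˢ R).sup fun x => (x.2 - x.1).natAbs with hN
  have h1 : (u' - u).natAbs ≤ N := le_sup (f := fun x : ℤ × ℤ => (x.2 - x.1).natAbs)
    (mem_product.2 ⟨hu, hu'⟩ : (u, u') ∈ R ×ˢ R)
  rw [md_eq] at h
  have h2 : N < p ^ N := N.lt_pow_self hp
  have h3 : p ^ N ∣ (u' - u).natAbs := by
    rw [← Int.natCast_dvd, Nat.cast_pow]
    exact h
  have h4 := Nat.eq_zero_of_dvd_of_lt h3 (lt_of_le_of_lt h1 h2)
  omega

/-- **The loss for the sums of a set with long fibres.** -/
theorem fibre_main {κ κ' θ m : ℝ} (h0 : 0 < κ) (h1 : κ ≤ 1) (h0' : 0 < κ') (h1' : κ' ≤ 1)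
    (hθ : 0 < θ) (hm0 : 0 < m) (P : Finset ℕ) (hP : ∀ p ∈ P, p.Prime) (A B : Finset ℤ)
    (h0A : (0 : ℤ) ∉ A)
    (hm : ∀ a ∈ A, m ≤ ((A.filter fun a' => uu P a' = uu P a).card : ℝ)) :
    T (A ×ˢ B) sm ≤ A.card * B.card * (κ * Real.log B.card + CR κ * P.card +
      κ' * (Real.log A.card + Real.log B.card) + Real.log B.card *
      ((Kc θ (cu κ') * Kc θ (cv κ')) ^ P.card *
        ((A.card : ℝ) ^ θ * (B.card : ℝ) ^ θ) / m)) := by
  have hcu := cu_le h0' h1'
  have hcv := cv_le h0' h1'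
  have hK1 := Kc_ge hθ (cu_pos κ') (by linarith)
  have hK2 := Kc_ge hθ (cv_pos κ') (by linarith)
  set K := Kc θ (cu κ') * Kc θ (cv κ') with hK
  have hK0 : 0 < K := by positivity
  have hne : ∀ a ∈ A, a ≠ 0 := fun a ha h => h0A (h ▸ ha)
  set ps := P.toList with hps
  have hlen : ps.length = P.card := length_toList P
  have hpsP : ∀ p ∈ ps, p.Prime := fun p hp => hP p (mem_toList.1 hp)
  set Us := A.image (uu P) with hUs
  set F := A.image (tt P) with hF
  obtain ⟨N, hN⟩ := exists_sep Us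
  -- reveal the valuations
  have r1 := val_reveal h0 h1 ps hpsP A B h0A (tt P) (fun a _ a' _ h => by
    unfold tt
    exact prod_congr rfl fun p hp => by rw [h p (mem_toList.2 hp)])
  rw [sum_add_distrib, sum_fiber (A ×ˢ B) sm (fun x => tt P x.1) F (fun x hx =>
    mem_image_of_mem _ (mem_product.1 hx).1)] at r1
  -- the fibres
  set Ut : ℤ → Finset ℤ := fun t => (A.filter fun a => tt P a = t).image (uu P) with hUt
  have r2 : ∀ t ∈ F, T ((A ×ˢ B).filter fun x => tt P x.1 = t) sm = T (Ut t ×ˢ B) (st t) := by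
    intro t ht
    obtain ⟨a₀, ha₀, rfl⟩ := mem_image.1 ht
    set t := tt P a₀ with htd
    have ht0 : t ≠ 0 := (tt_pos hP a₀).ne'
    have e1 : ((A ×ˢ B).filter fun x => tt P x.1 = t) =
        (Ut t ×ˢ B).image fun x => (t * x.1, x.2) := by
      ext x
      rw [mem_filter, mem_product, mem_image]
      constructor
      · rintro ⟨⟨h2, h3⟩, h4⟩
        refine ⟨(uu P x.1, x.2), mem_product.2 ⟨mem_image_of_mem _ (mem_filter.2 ⟨h2, h4⟩), h3⟩, ?_⟩
        refine Prod.ext ?_ rfl
        change t * uu P x.1 = x.1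
        rw [← h4]
        exact tt_mul_uu hP (hne _ h2)
      · rintro ⟨y, hy, rfl⟩
        rw [mem_product, hUt] at hy
        obtain ⟨⟨z, hz⟩, h3⟩ := (⟨mem_image.1 hy.1, hy.2⟩ : (∃ z ∈ A.filter (fun a => tt P a = t),
          uu P z = y.1) ∧ y.2 ∈ B)
        rw [mem_filter] at hz
        have h5 : t * y.1 = z := by
          rw [← hz.2, ← hz.1.2]
          exact tt_mul_uu hP (hne _ hz.1.1)
        change (t * y.1 ∈ A ∧ y.2 ∈ B) ∧ tt P (t * y.1) = t
        rw [h5]
        exact ⟨⟨hz.1.1, h3⟩, hz.1.2⟩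
    rw [e1, T_image]
    · rfl
    · intro x _ y _ hxy
      rw [Prod.mk.injEq] at hxy
      exact Prod.ext (mul_left_cancel₀ ht0 hxy.1) hxy.2
  rw [sum_congr rfl r2] at r1
  -- the stages
  have hUsub : ∀ t, Ut t ⊆ Us := fun t => image_subset_image (filter_subset _ _)
  have r3 : ∀ t ∈ F, T (Ut t ×ˢ B) (st t) ≤ ∑ w ∈ Ut t ×ˢ B,
      (κ' * (Real.log Us.card + Real.log B.card) + Real.log B.card *
        bad κ' N (fun p => va p t) ps Us B w) := by
    intro t ht
    obtain ⟨a₀, ha₀, rfl⟩ := mem_image.1 ht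
    exact stage h0' h1' (tt_pos hP a₀).ne' (fun p => va p (tt P a₀)) Us B N ps hpsP
      (fun _ _ => rfl) (fun p hp => hN p (hpsP p hp).two_le) Us (Ut (tt P a₀)) B
      (hUsub _) subset_rfl subset_rfl
  have hlogB := Real.log_natCast_nonneg B.card
  have hlogA := Real.log_natCast_nonneg A.card
  -- the number of the pairs
  have hUcard : ∀ t ∈ F, ((Ut t).card : ℝ) = ((A.filter fun a => tt P a = t).card : ℝ) := by
    intro t ht
    rw [hUt]
    change (((A.filter fun a => tt P a = t).image (uu P)).card : ℝ) = _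
    rw [card_image_of_injOn]
    intro a ha a' ha' h
    rw [mem_coe, mem_filter] at ha ha'
    rw [← tt_mul_uu hP (hne _ ha.1), ← tt_mul_uu hP (hne _ ha'.1), ha.2, ha'.2, h]
  have hsumU : ∑ t ∈ F, ((Ut t).card : ℝ) = A.card := by
    rw [sum_congr rfl hUcard]
    have := card_eq_sum_card_image (tt P) A
    rw [this]
    push_cast
    rfl
  have hUsA : (Us.card : ℝ) ≤ A.card := by exact_mod_cast card_image_le
  have hlogU : Real.log Us.card ≤ Real.log A.card := by
    rcases Us.eq_empty_or_nonempty with h | h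
    · rw [h]
      simpa using hlogA
    · exact Real.log_le_log (by exact_mod_cast card_pos.2 h) hUsA
  have hUm : (Us.card : ℝ) ≤ A.card / m := by
    rw [le_div_iff₀ hm0]
    have h2 := card_eq_sum_card_image (uu P) A
    have h3 : (A.card : ℝ) = ∑ u ∈ Us, ((A.filter fun a => uu P a = u).card : ℝ) := by
      exact_mod_cast h2
    rw [h3]
    have h4 : ∑ u ∈ Us, m ≤ ∑ u ∈ Us, ((A.filter fun a => uu P a = u).card : ℝ) := by
      refine sum_le_sum fun u hu => ?_
      obtain ⟨a, ha, rfl⟩ := mem_image.1 hu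
      exact hm a ha
    rw [sum_const, nsmul_eq_mul] at h4
    exact h4
  -- the first part
  have s1 : ∑ t ∈ F, ∑ w ∈ Ut t ×ˢ B, (κ' * (Real.log Us.card + Real.log B.card)) ≤
      A.card * B.card * (κ' * (Real.log A.card + Real.log B.card)) := by
    have e1 : ∀ t ∈ F, ∑ w ∈ Ut t ×ˢ B, (κ' * (Real.log Us.card + Real.log B.card)) =
        (Ut t).card * (B.card * (κ' * (Real.log Us.card + Real.log B.card))) := by
      intro t _
      rw [sum_const, card_product, nsmul_eq_mul]
      push_cast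
      ring
    rw [sum_congr rfl e1, ← sum_mul, hsumU, mul_assoc]
    gcongr
  -- the second part
  have s2 : ∑ t ∈ F, ∑ w ∈ Ut t ×ˢ B, (Real.log B.card *
      bad κ' N (fun p => va p t) ps Us B w) ≤ A.card * B.card * (Real.log B.card *
      (K ^ P.card * ((A.card : ℝ) ^ θ * (B.card : ℝ) ^ θ) / m)) := by
    have e1 : ∑ t ∈ F, ∑ w ∈ Ut t ×ˢ B, (Real.log B.card *
        bad κ' N (fun p => va p t) ps Us B w) ≤
        ∑ t ∈ F, ∑ w ∈ Us ×ˢ B, (Real.log B.card * bad κ' N (fun p => va p t) ps Us B w) := by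
      refine sum_le_sum fun t _ => sum_le_sum_of_subset_of_nonneg
        (product_subset_product (hUsub t) subset_rfl) fun w _ _ => ?_
      exact mul_nonneg hlogB (bad_nonneg ps Us B w)
    refine e1.trans ?_
    rw [sum_comm]
    have e2 : ∀ w ∈ Us ×ˢ B, ∑ t ∈ F, (Real.log B.card *
        bad κ' N (fun p => va p t) ps Us B w) ≤ Real.log B.card *
        (K ^ P.card * ((A.card : ℝ) ^ θ * (B.card : ℝ) ^ θ)) := by
      intro w hw
      rw [mem_product] at hw
      rw [← mul_sum]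
      refine mul_le_mul_of_nonneg_left ?_ hlogB
      refine (count h0' h1' hθ N (fun t : ℤ => fun p => va p t) ps F ?_ Us B w hw.1 hw.2).trans ?_
      · intro t ht t' ht' h
        obtain ⟨a, ha, rfl⟩ := mem_image.1 ht
        obtain ⟨a', ha', rfl⟩ := mem_image.1 ht'
        exact tt_tt hP fun p hp => h p (mem_toList.2 hp)
      · rw [hlen]
        have := Real.rpow_le_rpow (by positivity) hUsA hθ.le
        refine mul_le_mul_of_nonneg_left (mul_le_mul_of_nonneg_right this (by positivity))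
          (by positivity)
    refine (sum_le_sum e2).trans ?_
    rw [sum_const, card_product, nsmul_eq_mul]
    push_cast
    have e3 : (Us.card : ℝ) * B.card * (Real.log B.card *
        (K ^ P.card * ((A.card : ℝ) ^ θ * (B.card : ℝ) ^ θ))) ≤
        A.card / m * B.card * (Real.log B.card *
        (K ^ P.card * ((A.card : ℝ) ^ θ * (B.card : ℝ) ^ θ))) := by
      gcongr
    refine e3.trans (le_of_eq ?_)
    ring
  have s3 : ∑ x ∈ A ×ˢ B, (κ * Real.log B.card + CR κ * ps.length) =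
      A.card * B.card * (κ * Real.log B.card + CR κ * P.card) := by
    rw [sum_const, card_product, nsmul_eq_mul, hlen]
    push_cast
    ring
  have s4 := sum_le_sum r3
  simp only [sum_add_distrib] at s4
  simp only [sum_add_distrib] at s3 r1
  rw [s3] at r1
  have s5 : A.card * B.card * (κ * Real.log B.card + CR κ * P.card +
      κ' * (Real.log A.card + Real.log B.card) + Real.log B.card *
      (K ^ P.card * ((A.card : ℝ) ^ θ * (B.card : ℝ) ^ θ) / m)) =
      A.card * B.card * (κ * Real.log B.card + CR κ * P.card) +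
      (A.card * B.card * (κ' * (Real.log A.card + Real.log B.card)) +
      A.card * B.card * (Real.log B.card *
      (K ^ P.card * ((A.card : ℝ) ^ θ * (B.card : ℝ) ^ θ) / m))) := by ring
  rw [s5]
  linarith

/-- the entropy of a sum and the size of the sumset -/
lemma log_sumset_ge (A B : Finset ℤ) (hA : A.Nonempty) (hB : B.Nonempty) {E : ℝ}
    (hT : T (A ×ˢ B) sm ≤ A.card * B.card * E) :
    Real.log A.card + Real.log B.card - E ≤ Real.log (A + B).card := by
  have hAc : (0 : ℝ) < A.card := by exact_mod_cast card_pos.2 hA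
  have hBc : (0 : ℝ) < B.card := by exact_mod_cast card_pos.2 hB
  have h1 := h_le_log (hA.product hB) sm
  have h5 : ∀ W : Finset ℤ, (∀ z, z ∈ W ↔ z ∈ A + B) → Real.log W.card = Real.log (A + B).card :=
    fun W hW => by rw [Finset.ext hW]
  have h4 : h (A ×ˢ B) sm ≤ Real.log (A + B).card := by
    refine h1.trans (le_of_eq (h5 _ fun z => ?_))
    refine Iff.trans (@Finset.mem_image _ _ (_) _ _ _) ?_
    rw [mem_add]
    constructor
    · rintro ⟨x, hx, rfl⟩
      rw [mem_product] at hx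
      exact ⟨x.1, hx.1, x.2, hx.2, rfl⟩
    · rintro ⟨a, ha, b, hb, rfl⟩
      exact ⟨(a, b), mem_product.2 ⟨ha, hb⟩, rfl⟩
  refine le_trans ?_ h4
  unfold h
  rw [le_div_iff₀ (by rw [card_product]; push_cast; positivity), sum_sub_distrib, sum_const,
    nsmul_eq_mul]
  unfold T at hT
  rw [card_product]
  push_cast
  rw [Real.log_mul hAc.ne' hBc.ne']
  linarith

end Pool.Agent.L5helper37.PF
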