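import Mathlib
import Pool.Agent.L5helper37.PF.Fibre

/-!
# Growth of the sums of sets with long fibres
-/

set_option autoImplicit false

namespace Pool.Agent.L5helper37.PF

open Finset Pool.Agent.Y359.PE
open scoped Classical Pointwise

lemma CR_pos {κ : ℝ} (h0 : 0 < κ) (h1 : κ ≤ 1) : 0 < CR κ := by
  unfold CR
  have h2 := c1_pos κ
  have h3 := c1_le h0 h1
  have : Real.log (κ * c1 κ / 2) ≤ 0 := Real.log_nonpos (by positivity) (by nlinarith)
  linarith

lemma mul_exp_neg_le {c x : ℝ} (hc : 0 < c) : x * Real.exp (-(c * x)) ≤ 1 / c := by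
  rw [Real.exp_neg, ← div_eq_mul_inv, div_le_div_iff₀ (Real.exp_pos _) hc]
  have := Real.add_one_le_exp (c * x)
  nlinarith

/-- one step, with exponential parameters -/
lemma step_growth (k : ℕ) {ε γ : ℝ} (hε : 0 < ε) (hε1 : ε ≤ 1) (hγ : 0 < γ) :
    ∃ η C : ℝ, 0 < η ∧ 0 ≤ C ∧ ∀ (P : Finset ℕ), (∀ p ∈ P, p.Prime) → ∀ (A B : Finset ℤ),
      (0 : ℤ) ∉ A → A.Nonempty → B.Nonempty → ∀ ℓ : ℝ, 0 ≤ ℓ → Real.log A.card ≤ ℓ →
      Real.log B.card ≤ k * ℓ → (P.card : ℝ) ≤ η * ℓ →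
      (∀ a ∈ A, Real.exp (γ * ℓ) ≤ ((A.filter fun a' => uu P a' = uu P a).card : ℝ)) →
      Real.log A.card + Real.log B.card - (ε * ℓ + C) ≤ Real.log (A + B).card := by
  set κ : ℝ := ε / (4 * (k + 1)) with hκ
  have hk1 : (0 : ℝ) < k + 1 := by positivity
  have hκ0 : 0 < κ := by positivity
  have hκ1 : κ ≤ 1 := by
    rw [hκ, div_le_one (by positivity)]
    nlinarith [show (0 : ℝ) ≤ k from Nat.cast_nonneg k]
  have hκk : κ * (k + 1) = ε / 4 := by
    rw [hκ]
    field_simp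
  set θ : ℝ := γ / (4 * (k + 1)) with hθ
  have hθ0 : 0 < θ := by positivity
  have hθk : θ * (k + 1) = γ / 4 := by
    rw [hθ]
    field_simp
  have hcu := cu_le hκ0 hκ1
  have hcv := cv_le hκ0 hκ1
  have hK1 := Kc_ge hθ0 (cu_pos κ) (by linarith)
  have hK2 := Kc_ge hθ0 (cv_pos κ) (by linarith)
  set K := Kc θ (cu κ) * Kc θ (cv κ) with hK
  have hK11 : 1 ≤ K := by nlinarith
  have hK0 : 0 < K := by linarith
  have hlK : 0 ≤ Real.log K := Real.log_nonneg hK11
  have hCR := CR_pos hκ0 hκ1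
  refine ⟨min (ε / (4 * CR κ)) (γ / (4 * (Real.log K + 1))), k * (1 / (γ / 2)),
    by positivity, by positivity, ?_⟩
  intro P hP A B h0A hA hB ℓ hℓ hAℓ hBℓ hPc hm
  have hA0 : (0 : ℝ) < A.card := by exact_mod_cast card_pos.2 hA
  have hB0 : (0 : ℝ) < B.card := by exact_mod_cast card_pos.2 hB
  have hlB := Real.log_natCast_nonneg B.card
  have main := log_sumset_ge A B hA hB (fibre_main hκ0 hκ1 hκ0 hκ1 hθ0
    (Real.exp_pos (γ * ℓ)) P hP A B h0A hm)
  rw [← hK] at main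
  refine le_trans ?_ main
  have hP0 : (0 : ℝ) ≤ P.card := Nat.cast_nonneg _
  -- the number of primes
  have p1 : CR κ * P.card ≤ ε / 4 * ℓ := by
    have h2 : (P.card : ℝ) ≤ ε / (4 * CR κ) * ℓ :=
      hPc.trans (mul_le_mul_of_nonneg_right (min_le_left _ _) hℓ)
    have h3 := mul_le_mul_of_nonneg_left h2 hCR.le
    have h4 : CR κ * (ε / (4 * CR κ) * ℓ) = ε / 4 * ℓ := by
      field_simp
    linarith
  have p2 : Real.log K * P.card ≤ γ / 4 * ℓ := by
    have h2 : (P.card : ℝ) ≤ γ / (4 * (Real.log K + 1)) * ℓ :=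
      hPc.trans (mul_le_mul_of_nonneg_right (min_le_right _ _) hℓ)
    have h3 := mul_le_mul_of_nonneg_left h2 (show 0 ≤ Real.log K + 1 by linarith)
    have h4 : (Real.log K + 1) * (γ / (4 * (Real.log K + 1)) * ℓ) = γ / 4 * ℓ := by
      field_simp
    nlinarith
  -- the bad part
  have q1 : K ^ P.card = Real.exp (Real.log K * P.card) := by
    rw [mul_comm, Real.exp_nat_mul, Real.exp_log hK0]
  have q2 : (A.card : ℝ) ^ θ ≤ Real.exp (θ * ℓ) := by
    rw [Real.rpow_def_of_pos hA0, Real.exp_le_exp]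
    nlinarith
  have q3 : (B.card : ℝ) ^ θ ≤ Real.exp (θ * (k * ℓ)) := by
    rw [Real.rpow_def_of_pos hB0, Real.exp_le_exp]
    nlinarith
  have q4 : K ^ P.card * ((A.card : ℝ) ^ θ * (B.card : ℝ) ^ θ) / Real.exp (γ * ℓ) ≤
      Real.exp (-(γ / 2 * ℓ)) := by
    rw [div_le_iff₀ (Real.exp_pos _), ← Real.exp_add]
    have h2 : (A.card : ℝ) ^ θ * (B.card : ℝ) ^ θ ≤ Real.exp (θ * ℓ) * Real.exp (θ * (k * ℓ)) :=
      mul_le_mul q2 q3 (by positivity) (Real.exp_pos _).le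
    rw [← Real.exp_add] at h2
    rw [q1]
    refine (mul_le_mul_of_nonneg_left h2 (Real.exp_pos _).le).trans ?_
    rw [← Real.exp_add, Real.exp_le_exp]
    have h3 : θ * ℓ + θ * (k * ℓ) = γ / 4 * ℓ := by
      rw [← hθk]
      ring
    linarith
  have q5 : Real.log B.card * (K ^ P.card * ((A.card : ℝ) ^ θ * (B.card : ℝ) ^ θ) /
      Real.exp (γ * ℓ)) ≤ k * (1 / (γ / 2)) := by
    have h2 := mul_le_mul hBℓ q4 (by positivity) (by positivity)
    refine h2.trans ?_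
    have h3 := mul_exp_neg_le (c := γ / 2) (x := ℓ) (by positivity)
    have h4 := mul_le_mul_of_nonneg_left h3 (show (0 : ℝ) ≤ k by positivity)
    linarith
  have q6 : κ * Real.log B.card + κ * (Real.log A.card + Real.log B.card) ≤ ε / 2 * ℓ := by
    have h2 : κ * Real.log B.card ≤ κ * (k * ℓ) := mul_le_mul_of_nonneg_left hBℓ hκ0.le
    have h3 : κ * (Real.log A.card + Real.log B.card) ≤ κ * (ℓ + k * ℓ) :=
      mul_le_mul_of_nonneg_left (by linarith) hκ0.le
    have h4 : κ * (ℓ + k * ℓ) = ε / 4 * ℓ := by rw [← hκk]; ring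
    have h5 : κ * (k * ℓ) ≤ κ * (ℓ + k * ℓ) := mul_le_mul_of_nonneg_left (by linarith) hκ0.le
    linarith
  have q7 : 0 ≤ ε / 4 * ℓ := by positivity
  linarith

/-- the `k`-fold sums, recursively -/
lemma sk_succ (j : ℕ) (A : Finset ℤ) : sk (j + 1) A = A + sk j A := by
  unfold sk
  ext z
  simp only [mem_image, Fintype.mem_piFinset, mem_add]
  constructor
  · rintro ⟨f, hf, rfl⟩
    refine ⟨f 0, hf 0, ∑ i : Fin j, f i.succ, ⟨fun i => f i.succ, fun i => hf _, rfl⟩, ?_⟩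
    rw [Fin.sum_univ_succ]
  · rintro ⟨a, ha, b, ⟨f, hf, rfl⟩, rfl⟩
    refine ⟨Fin.cons a f, fun i => ?_, ?_⟩
    · refine Fin.cases ?_ (fun i => ?_) i
      · simpa using ha
      · simpa using hf i
    · rw [Fin.sum_univ_succ]
      simp

lemma sk_zero (A : Finset ℤ) : sk 0 A = {0} := by
  unfold sk
  ext z
  simp only [mem_image, Fintype.mem_piFinset, mem_singleton, univ_eq_empty, sum_empty]
  constructor
  · rintro ⟨f, _, rfl⟩
    rfl
  · rintro rfl
    exact ⟨fun i => i.elim0, fun i => i.elim0, rfl⟩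

lemma card_sk_le (j : ℕ) (A : Finset ℤ) : (sk j A).card ≤ A.card ^ j := by
  unfold sk
  refine card_image_le.trans ?_
  rw [Fintype.card_piFinset]
  simp

/-- **`k` steps.** -/
lemma kfold_growth (k K : ℕ) {ε γ : ℝ} (hε : 0 < ε) (hε1 : ε ≤ 1) (hγ : 0 < γ) :
    ∃ η C : ℝ, 0 < η ∧ 0 ≤ C ∧ ∀ (P : Finset ℕ), (∀ p ∈ P, p.Prime) → ∀ (A B : Finset ℤ),
      (0 : ℤ) ∉ A → A.Nonempty → B.Nonempty → ∀ ℓ : ℝ, 0 ≤ ℓ → Real.log A.card ≤ ℓ →
      Real.log B.card ≤ K * ℓ → (P.card : ℝ) ≤ η * ℓ →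
      (∀ a ∈ A, Real.exp (γ * ℓ) ≤ ((A.filter fun a' => uu P a' = uu P a).card : ℝ)) →
      k * Real.log A.card + Real.log B.card - k * (ε * ℓ + C) ≤
        Real.log (sk k A + B).card := by
  obtain ⟨η, C, hη, hC, hstep⟩ := step_growth (k + K) hε hε1 hγ
  refine ⟨η, C, hη, hC, fun P hP A B h0A hA hB ℓ hℓ hAℓ hBℓ hPc hm => ?_⟩
  have hA1 : (1 : ℝ) ≤ A.card := by exact_mod_cast card_pos.2 hA
  have hB0 : (0 : ℝ) < B.card := by exact_mod_cast card_pos.2 hB
  have hne : ∀ j, (sk j A).Nonempty := by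
    intro j
    obtain ⟨a, ha⟩ := hA
    exact ⟨_, mem_image_of_mem _ (Fintype.mem_piFinset.2 fun _ => ha)⟩
  have claim : ∀ j : ℕ, j ≤ k → j * Real.log A.card + Real.log B.card - j * (ε * ℓ + C) ≤
      Real.log (sk j A + B).card := by
    intro j
    induction j with
    | zero =>
      intro _
      rw [sk_zero, singleton_add]
      simp
    | succ j ih =>
      intro hj
      have h1 := ih (by omega)
      have hBj : Real.log (sk j A + B).card ≤ ((k + K : ℕ) : ℝ) * ℓ := by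
        have h2 : ((sk j A + B).card : ℝ) ≤ (A.card : ℝ) ^ j * B.card := by
          have := (card_add_le (s := sk j A) (t := B)).trans
            (Nat.mul_le_mul_right _ (card_sk_le j A))
          exact_mod_cast this
        have h3 : (0 : ℝ) < (sk j A + B).card := by
          exact_mod_cast card_pos.2 ((hne j).add hB)
        have h4 := Real.log_le_log h3 h2
        rw [Real.log_mul (by positivity) hB0.ne', Real.log_pow] at h4
        have h5 : (j : ℝ) * Real.log A.card ≤ k * ℓ := by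
          have : (j : ℝ) ≤ k := by exact_mod_cast (by omega : j ≤ k)
          have h6 := Real.log_nonneg hA1
          exact mul_le_mul this hAℓ h6 (by positivity)
        push_cast
        linarith
      have h2 := hstep P hP A (sk j A + B) h0A hA ((hne j).add hB) ℓ hℓ hAℓ hBj hPc hm
      rw [sk_succ, add_assoc]
      push_cast
      linarith
  exact claim k le_rfl

/-- the same sign and the same valuations outside `P` -/
lemma uu_eq {P : Finset ℕ} (hP : ∀ p ∈ P, p.Prime) {x y : ℤ} (hx : x ≠ 0) (hy : y ≠ 0)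
    (hs : 0 < x ↔ 0 < y) (h : ∀ p, p ∉ P → fa x p = fa y p) : uu P x = uu P y := by
  have h1 := rep P hP hx hy hs h
  have h2 := tt_mul_uu hP hx
  have h3 := tt_mul_uu hP hy
  have h4 : ∀ z : ℤ, ((tt P z : ℤ) : ℚ) = ∏ p ∈ P, (p : ℚ) ^ fa z p := by
    intro z
    unfold tt
    push_cast
    rfl
  have hne : ∀ z : ℤ, (∏ p ∈ P, (p : ℚ) ^ fa z p) ≠ 0 := fun z => prod_ne_zero_iff.2 fun p hp =>
    pow_ne_zero _ (by exact_mod_cast (hP p hp).ne_zero)
  have h5 : ∏ p ∈ P, (p : ℚ) ^ ((fa y p : ℤ) - fa x p) =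
      (∏ p ∈ P, (p : ℚ) ^ fa y p) / ∏ p ∈ P, (p : ℚ) ^ fa x p := by
    rw [← prod_div_distrib]
    refine prod_congr rfl fun p hp => ?_
    have : (p : ℚ) ≠ 0 := by exact_mod_cast (hP p hp).ne_zero
    rw [zpow_sub₀ this, zpow_natCast, zpow_natCast]
  rw [h5] at h1
  have h6 : ((tt P x * uu P x : ℤ) : ℚ) = x := by rw [h2]
  have h7 : ((tt P y * uu P y : ℤ) : ℚ) = y := by rw [h3]
  push_cast at h6 h7
  rw [h4] at h6 h7
  have h8 : ((uu P x : ℤ) : ℚ) = uu P y := by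
    have h9 := hne x
    have h10 := hne y
    rw [← h6, ← h7] at h1
    field_simp at h1
    exact h1.symm
  exact_mod_cast h8

end Pool.Agent.L5helper37.PF
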