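import Mathlib
import Pool.Agent.L5helper37.PF.Growth
import Pool.Agent.Y359.PE.Dich2

/-!
# Sets with linearly many popular primes: the main theorems
-/

set_option autoImplicit false

namespace Pool.Agent.L5helper37.PF

open Finset Pool.Agent.Y359.PE
open scoped Classical Pointwise

/-- **Theorem 1.** Sums of a set with long fibres along few primes. -/
theorem long_fibres (k : ℕ) (ε γ : ℝ) (hε : 0 < ε) (hγ : 0 < γ) :
    ∃ η c : ℝ, 0 < η ∧ 0 < c ∧ ∀ (A B : Finset ℤ) (P : Finset ℕ), A.Nonempty → B.Nonempty →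
      (0 : ℤ) ∉ A → (∀ p ∈ P, p.Prime) → (P.card : ℝ) ≤ η * Real.log A.card →
      (∀ a ∈ A, (A.card : ℝ) ^ γ ≤ ((A.filter fun x => (0 < x ↔ 0 < a) ∧ ∀ p : ℕ, p ∉ P →
        fa x p = fa a p).card : ℝ)) →
      c * ((A.card : ℝ) ^ k * B.card) ^ (1 - ε) ≤ ((sk k A + B).card : ℝ) := by
  set ε' := min ε 1 with hε'
  have hε'0 : 0 < ε' := lt_min hε one_pos
  have hε'1 : ε' ≤ 1 := min_le_right _ _
  have hε'ε : ε' ≤ ε := min_le_left _ _
  obtain ⟨K, hK⟩ := exists_nat_ge (2 * k / ε')
  obtain ⟨η, C, hη, hC, main⟩ := kfold_growth k K hε'0 hε'1 hγ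
  refine ⟨η, Real.exp (-(k * C)), hη, Real.exp_pos _, ?_⟩
  intro A B P hA hB h0A hP hPc hfib
  have hA1 : (1 : ℝ) ≤ A.card := by exact_mod_cast card_pos.2 hA
  have hB1 : (1 : ℝ) ≤ B.card := by exact_mod_cast card_pos.2 hB
  have hlA := Real.log_nonneg hA1
  have hlB := Real.log_nonneg hB1
  have hne : (sk k A).Nonempty := by
    obtain ⟨a, ha⟩ := hA
    exact ⟨_, mem_image_of_mem _ (Fintype.mem_piFinset.2 fun _ => ha)⟩
  have hS0 : (0 : ℝ) < (sk k A + B).card := by exact_mod_cast card_pos.2 (hne.add hB)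
  rw [← Real.log_le_log_iff (by positivity) hS0, Real.log_mul (Real.exp_pos _).ne'
    (by positivity), Real.log_exp, Real.log_rpow (by positivity), Real.log_mul (by positivity)
    (by positivity), Real.log_pow]
  have hkC : 0 ≤ k * C := by positivity
  have hx0 : 0 ≤ k * Real.log A.card + Real.log B.card := by positivity
  have hred : (1 - ε) * (k * Real.log A.card + Real.log B.card) ≤
      (1 - ε') * (k * Real.log A.card + Real.log B.card) :=
    mul_le_mul_of_nonneg_right (by linarith) hx0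
  rcases le_or_gt (Real.log B.card) (K * Real.log A.card) with hcase | hcase
  · have h1 := main P hP A B h0A hA hB (Real.log A.card) hlA le_rfl hcase hPc (fun a ha => by
      have h2 : Real.exp (γ * Real.log A.card) = (A.card : ℝ) ^ γ := by
        rw [Real.rpow_def_of_pos (by linarith), mul_comm]
      rw [h2]
      refine (hfib a ha).trans ?_
      have h3 : (A.filter fun x => (0 < x ↔ 0 < a) ∧ ∀ p : ℕ, p ∉ P → fa x p = fa a p) ⊆
          A.filter fun a' => uu P a' = uu P a := by
        intro x hx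
        rw [mem_filter] at hx ⊢
        exact ⟨hx.1, uu_eq hP (fun h => h0A (h ▸ hx.1)) (fun h => h0A (h ▸ ha)) hx.2.1 hx.2.2⟩
      exact_mod_cast card_le_card h3)
    have h4 : 0 ≤ ε' * Real.log B.card := by positivity
    linarith
  · have h1 : Real.log B.card ≤ Real.log (sk k A + B).card := by
      refine Real.log_le_log (by linarith) ?_
      exact_mod_cast card_le_card_add_left hne
    have h2 : k * Real.log A.card ≤ ε' / 2 * Real.log B.card := by
      have h3 : 2 * k ≤ ε' * K := by
        rw [div_le_iff₀ hε'0] at hK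
        linarith
      have h4 : 2 * k * Real.log A.card ≤ ε' * K * Real.log A.card :=
        mul_le_mul_of_nonneg_right h3 hlA
      have h5 : ε' * (K * Real.log A.card) ≤ ε' * Real.log B.card :=
        mul_le_mul_of_nonneg_left hcase.le hε'0.le
      linarith
    have h6 : (1 - ε') * (k * Real.log A.card + Real.log B.card) ≤ Real.log B.card := by
      have h7 : (1 - ε') * (k * Real.log A.card + Real.log B.card) ≤
          (1 - ε') * (ε' / 2 * Real.log B.card + Real.log B.card) :=
        mul_le_mul_of_nonneg_left (by linarith) (by linarith)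
      have h8 : 0 ≤ ε' * Real.log B.card := by positivity
      have h9 : 0 ≤ ε' * (ε' * Real.log B.card) := by positivity
      nlinarith
    linarith

/-- **Theorem 2.** Linearly many popular primes: sums or products. -/
theorem dich (k : ℕ) (hk : 1 ≤ k) (ε : ℝ) (hε : 0 < ε) (hε1 : ε ≤ 1) :
    ∃ L η c : ℝ, 1 ≤ L ∧ 0 < η ∧ 0 < c ∧ ∀ (A B : Finset ℤ) (P : Finset ℕ), B ⊆ A →
      B.Nonempty → (∀ p ∈ P, p.Prime) → (P.card : ℝ) ≤ η * Real.log B.card →
      (∀ p : ℕ, p.Prime → p ∉ P →
        ∃ e : ℕ, L * ((B.filter fun b => b ≠ 0 ∧ fa b p ≠ e).card : ℝ) ≤ B.card) →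
      c * (B.card : ℝ) ^ ((k : ℝ) - ε) ≤ max ((sk k A).card : ℝ) ((pk k A).card : ℝ) := by
  have hkr : (1 : ℝ) ≤ k := by exact_mod_cast hk
  -- the parameters
  set γ : ℝ := ε / (4 * k) with hγ
  have hγ0 : 0 < γ := by positivity
  have hγ4 : γ ≤ 1 / 4 := by
    rw [hγ, div_le_div_iff₀ (by positivity) (by norm_num)]
    nlinarith
  set ε' : ℝ := ε / (2 * k) with hε'
  have hε'0 : 0 < ε' := by positivity
  have hε'1 : ε' ≤ 1 := by
    rw [hε', div_le_one (by positivity)]
    nlinarith
  obtain ⟨η, C, hη, hC0, hgrow⟩ := kfold_growth k 0 hε'0 hε'1 hγ0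
  set Λ : ℝ := Real.exp (6 + k * (4 + k) / γ) with hΛ
  have hlogΛ : Real.log Λ = 6 + k * (4 + k) / γ := by rw [hΛ, Real.log_exp]
  have hkk : 0 < k * (4 + (k : ℝ)) / γ := by positivity
  have hΛ5 : 5 < Real.log Λ := by rw [hlogΛ]; linarith
  have hΛ1 : 1 < Λ := by
    rw [hΛ]
    exact Real.one_lt_exp_iff.2 (by linarith)
  have hΛγ : k * (4 + k) / Real.log Λ ≤ γ := by
    rw [div_le_iff₀ (by linarith), hlogΛ]
    have : γ * (k * (4 + (k : ℝ)) / γ) = k * (4 + k) := by field_simp
    nlinarith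
  -- large `N`
  have hlim : Filter.Tendsto (fun n : ℕ => Real.log (n : ℝ)) Filter.atTop Filter.atTop :=
    Real.tendsto_log_atTop.comp tendsto_natCast_atTop_atTop
  obtain ⟨N₀, hN₀⟩ := (hlim.eventually (Filter.eventually_ge_atTop 2)).exists_forall_of_atTop
  set N₁ : ℕ := max N₀ 3 with hN₁
  have hN₁3 : 3 ≤ N₁ := le_max_right _ _
  have hN₁r : (3 : ℝ) ≤ N₁ := by exact_mod_cast hN₁3
  have heC : Real.exp (-(k * C)) ≤ 1 := Real.exp_le_one_iff.2 (by
    have : 0 ≤ k * C := by positivity
    linarith)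
  refine ⟨3 * Λ, η, Real.exp (-(k * C)) * (γ / (3 * N₁)) ^ k, by linarith, hη,
    by positivity, ?_⟩
  intro A B P hBA hBn hP hPc hpop
  set N : ℝ := (B.card : ℝ) with hN
  have hN1 : 1 ≤ N := by
    rw [hN]
    exact_mod_cast card_pos.2 hBn
  have hN0 : 0 < N := by linarith
  have hcle : (γ / (3 * N₁)) ^ k ≤ (γ / 3) ^ k := by
    refine pow_le_pow_left₀ (by positivity) ?_ k
    exact div_le_div_of_nonneg_left hγ0.le (by norm_num) (by nlinarith)
  have hkε : (k : ℝ) - ε ≤ k := by linarith
  have hkε0 : 0 ≤ (k : ℝ) - ε := by linarith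
  have hdrop : Real.exp (-(k * C)) * (γ / (3 * N₁)) ^ k * N ^ ((k : ℝ) - ε) ≤
      (γ / (3 * N₁)) ^ k * N ^ ((k : ℝ) - ε) := by
    refine mul_le_mul_of_nonneg_right ?_ (by positivity)
    exact mul_le_of_le_one_left (by positivity) heC
  rcases lt_or_ge B.card N₁ with hsmall | hlarge
  · -- small sets
    refine hdrop.trans ?_
    have h1 : N ^ ((k : ℝ) - ε) ≤ N ^ k := by
      rw [← Real.rpow_natCast N k]
      exact Real.rpow_le_rpow_of_exponent_le hN1 hkε
    have h2 : (γ / (3 * N₁)) ^ k * N ^ k ≤ 1 := by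
      rw [← mul_pow]
      refine pow_le_one₀ (by positivity) ?_
      have h3 : N ≤ N₁ := by
        rw [hN]
        exact_mod_cast hsmall.le
      rw [div_mul_eq_mul_div, div_le_one (by positivity)]
      nlinarith only [h3, hγ4, hγ0, hN₁r, hN0]
    have h4 : (1 : ℝ) ≤ (pk k A).card := by
      exact_mod_cast card_pos.2 (pk_nonempty (hBn.mono hBA))
    have h5 := mul_le_mul_of_nonneg_left h1 (show 0 ≤ (γ / (3 * (N₁ : ℝ))) ^ k by positivity)
    exact (h5.trans h2).trans (h4.trans (le_max_right _ _))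
  -- large sets
  have hℓ2 := hN₀ B.card ((le_max_left _ _).trans hlarge)
  set ℓ := Real.log (B.card : ℝ) with hℓ
  have hℓ0 : 0 < ℓ := by linarith
  obtain ⟨S, hSB, hS0, hSs, hSc⟩ := sign_part B (hN₁3.trans hlarge)
  have hSc' : N ≤ 3 * S.card := by
    rw [hN]
    exact_mod_cast hSc
  have hSp : (0 : ℝ) < S.card := by linarith
  have hSn : S.Nonempty := card_pos.1 (by exact_mod_cast hSp)
  have hSN : (S.card : ℝ) ≤ N := by
    rw [hN]
    exact_mod_cast card_le_card hSB
  choose! e he using hpop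
  set T := pr S \ P with hT
  set f := mk T (X e) with hf
  have hpopS : ∀ p ∈ T, Λ * ((S.filter fun a => fa a p ≠ e p).card : ℝ) ≤ S.card := by
    intro p hp
    rw [hT, mem_sdiff] at hp
    have h1 := he p (prime_of_mem_pr hp.1) hp.2
    have h2 : ((S.filter fun a => fa a p ≠ e p).card : ℝ) ≤
        ((B.filter fun b => b ≠ 0 ∧ fa b p ≠ e p).card : ℝ) := by
      have : (S.filter fun a => fa a p ≠ e p) ⊆ B.filter fun b => b ≠ 0 ∧ fa b p ≠ e p := by
        intro a ha
        rw [mem_filter] at ha ⊢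
        exact ⟨hSB ha.1, fun h => hS0 (h ▸ ha.1), ha.2⟩
      exact_mod_cast card_le_card this
    have h3 := mul_le_mul_of_nonneg_left h2 (show 0 ≤ 3 * Λ by linarith)
    linarith
  -- long classes
  set S2 := S.filter fun x => Real.exp (γ * ℓ) ≤ (fc S f x : ℝ) with hS2
  set S1 := S.filter fun x => ¬ Real.exp (γ * ℓ) ≤ (fc S f x : ℝ) with hS1
  have hS12 : S2.card + S1.card = S.card := card_filter_add_card_filter_not _
  have hS12r : (S2.card : ℝ) + S1.card = S.card := by exact_mod_cast hS12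
  have hlog3 : Real.log 3 ≤ 1.1 := by
    have h9 : Real.log 3 = Real.log 9 / 2 := by
      rw [show (9 : ℝ) = 3 ^ 2 by norm_num, Real.log_pow]
      push_cast
      ring
    rw [Real.log_le_iff_le_exp (by norm_num)]
    have h10 : (1.1 : ℝ) = 1 + 0.1 := by norm_num
    rw [h10, Real.exp_add]
    have h11 := Real.exp_one_gt_d9
    have h12 : (1.105 : ℝ) ≤ Real.exp 0.1 := by
      have := Real.quadratic_le_exp_of_nonneg (show (0 : ℝ) ≤ 0.1 by norm_num)
      norm_num at this ⊢
      linarith
    nlinarith only [h11, h12]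
  have hlog30 : 0 ≤ Real.log 3 := Real.log_nonneg (by norm_num)
  have hlogS : ℓ - Real.log 3 ≤ Real.log S.card := by
    rw [hℓ, ← Real.log_div (by positivity) (by norm_num)]
    refine Real.log_le_log (by positivity) ?_
    linarith
  rcases lt_or_ge (S2.card : ℝ) (γ * S.card) with hcase | hcase
  · -- products
    have main := prod_of_entropy S hSn hS0 T e k hk hΛ1 hΛ5 (by linarith) hΛγ hpopS
    have hh := h_ge_short S S1 hSn f (filter_subset _ _) (F := Real.exp (γ * ℓ)) (fun x hx => by
      exact (not_le.1 (mem_filter.1 hx).2).le)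
    rw [Real.log_exp] at hh
    have hq : 1 - γ ≤ (S1.card : ℝ) / S.card := by
      rw [le_div_iff₀ hSp]
      linarith
    have hpos : 0 ≤ (1 - γ) * ℓ - Real.log 3 := by nlinarith only [hγ4, hℓ2, hlog3]
    have hlow : (1 - γ) * ((1 - γ) * ℓ - Real.log 3) ≤ h S f := by
      refine le_trans ?_ hh
      refine mul_le_mul hq (by linarith) hpos (by positivity)
    have hmain2 : (1 - γ) * k * ((1 - γ) * ((1 - γ) * ℓ - Real.log 3)) ≤
        Real.log (pk k S).card := by
      refine le_trans ?_ main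
      refine mul_le_mul_of_nonneg_left hlow ?_
      have : 0 ≤ 1 - γ := by linarith
      positivity
    have hkγ : k * γ = ε / 4 := by
      rw [hγ]
      field_simp
    have hfin : ((k : ℝ) - ε) * ℓ - k * Real.log 3 ≤ Real.log (pk k S).card := by
      refine le_trans ?_ hmain2
      have h1 : 0 ≤ 1 - γ := by linarith
      have h2 : (1 - γ) * (1 - γ) ≤ 1 := by nlinarith only [h1, hγ0]
      have h3 : 1 - 3 * γ ≤ (1 - γ) * (1 - γ) * (1 - γ) := by
        have h30 : 0 ≤ γ ^ 2 * (3 - γ) := mul_nonneg (sq_nonneg γ) (by linarith)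
        nlinarith only [h30]
      have h4 : (1 - γ) * k * ((1 - γ) * ((1 - γ) * ℓ - Real.log 3)) =
          k * (((1 - γ) * (1 - γ) * (1 - γ)) * ℓ) - k * (((1 - γ) * (1 - γ)) * Real.log 3) := by
        ring
      rw [h4]
      have h5 : (k : ℝ) * ((1 - 3 * γ) * ℓ) ≤ k * (((1 - γ) * (1 - γ) * (1 - γ)) * ℓ) := by
        gcongr
      have h6 : (k : ℝ) * (((1 - γ) * (1 - γ)) * Real.log 3) ≤ k * (1 * Real.log 3) := by
        gcongr
      have h7 : (k : ℝ) * ((1 - 3 * γ) * ℓ) = k * ℓ - 3 * (k * γ) * ℓ := by ring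
      rw [hkγ] at h7
      nlinarith only [h5, h6, h7, mul_nonneg hε.le hℓ0.le]
    have hP0 : (0 : ℝ) < (pk k S).card := by exact_mod_cast card_pos.2 (pk_nonempty hSn)
    have hsub : ((pk k S).card : ℝ) ≤ (pk k A).card := by
      exact_mod_cast card_le_card (pk_mono (hSB.trans hBA))
    refine le_trans ?_ (hsub.trans (le_max_right _ _))
    refine hdrop.trans ?_
    have h8 : (γ / (3 * N₁)) ^ k * N ^ ((k : ℝ) - ε) ≤ (1 / 3) ^ k * N ^ ((k : ℝ) - ε) := by
      refine mul_le_mul_of_nonneg_right (hcle.trans ?_) (by positivity)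
      refine pow_le_pow_left₀ (by positivity) ?_ k
      linarith
    refine h8.trans ?_
    rw [← Real.log_le_log_iff (by positivity) hP0, Real.log_mul (by positivity)
      (Real.rpow_pos_of_pos hN0 _).ne', Real.log_rpow hN0, Real.log_pow, Real.log_div one_ne_zero
      (by norm_num), Real.log_one]
    linarith
  · -- sums
    have hS2p : (0 : ℝ) < S2.card := lt_of_lt_of_le (by positivity) hcase
    have hS2n : S2.Nonempty := card_pos.1 (by exact_mod_cast hS2p)
    have hS2S : S2 ⊆ S := filter_subset _ _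
    have hlogS2' : Real.log S2.card ≤ ℓ := by
      rw [hℓ]
      refine Real.log_le_log hS2p ?_
      have : (S2.card : ℝ) ≤ S.card := by exact_mod_cast card_le_card hS2S
      linarith
    have sc := hgrow P hP S2 {0} (fun h => hS0 (hS2S h)) hS2n (singleton_nonempty _) ℓ hℓ0.le
      hlogS2' (by simp) hPc (fun x hx => by
        have hx' := mem_filter.1 hx
        refine hx'.2.trans ?_
        have h2 : cl S f x ⊆ S2.filter fun y => uu P y = uu P x := by
          intro y hy
          have hy' := mem_cl.1 hy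
          rw [mem_filter]
          refine ⟨mem_filter.2 ⟨hy'.1, ?_⟩, ?_⟩
          · rw [fc_congr hy'.2]
            exact hx'.2
          · refine uu_eq hP (fun h => hS0 (h ▸ hy'.1)) (fun h => hS0 (h ▸ hx'.1))
              (hSs y hy'.1 x hx'.1) ?_
            intro p hp
            by_cases hp2 : p ∈ pr S
            · have h3 : p ∈ T := mem_sdiff.2 ⟨hp2, hp⟩
              exact (mk_X_eq_iff.1 hy'.2) p h3
            · rw [fa_eq_zero hy'.1 hp2, fa_eq_zero (hS2S hx) hp2]
        exact_mod_cast card_le_card h2)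
    have hB0 : sk k S2 + {0} = sk k S2 := by
      rw [add_singleton]
      simp
    rw [hB0, card_singleton, Nat.cast_one, Real.log_one, add_zero] at sc
    have hsub : ((sk k S2).card : ℝ) ≤ (sk k A).card := by
      exact_mod_cast card_le_card (sk_mono (hS2S.trans (hSB.trans hBA)))
    refine le_trans ?_ (hsub.trans (le_max_left _ _))
    have hskn : (sk k S2).Nonempty := by
      obtain ⟨a, ha⟩ := hS2n
      exact ⟨_, mem_image_of_mem _ (Fintype.mem_piFinset.2 fun _ => ha)⟩
    have hsk0 : (0 : ℝ) < (sk k S2).card := by exact_mod_cast card_pos.2 hskn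
    have hlogS2 : ℓ + Real.log (γ / 3) ≤ Real.log S2.card := by
      rw [hℓ, ← Real.log_mul (by positivity) (by positivity)]
      refine Real.log_le_log (by positivity) ?_
      change N * (γ / 3) ≤ _
      have h1 : γ * (N / 3) ≤ γ * S.card := mul_le_mul_of_nonneg_left (by linarith) hγ0.le
      linarith
    have h8 : Real.exp (-(k * C)) * (γ / (3 * N₁)) ^ k * N ^ ((k : ℝ) - ε) ≤
        Real.exp (-(k * C)) * (γ / 3) ^ k * N ^ ((k : ℝ) - ε) :=
      mul_le_mul_of_nonneg_right (mul_le_mul_of_nonneg_left hcle (Real.exp_pos _).le)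
        (by positivity)
    refine h8.trans ?_
    rw [← Real.log_le_log_iff (by positivity) hsk0, Real.log_mul (by positivity)
      (Real.rpow_pos_of_pos hN0 _).ne', Real.log_rpow hN0, Real.log_mul (Real.exp_pos _).ne'
      (by positivity), Real.log_exp, Real.log_pow]
    change -(k * C) + k * Real.log (γ / 3) + ((k : ℝ) - ε) * ℓ ≤ _
    have h9 := mul_le_mul_of_nonneg_left hlogS2 (show (0 : ℝ) ≤ k by positivity)
    have hkε' : k * ε' = ε / 2 := by
      rw [hε']
      field_simp
    have h10 : k * (ε' * ℓ + C) = ε / 2 * ℓ + k * C := by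
      rw [← hkε']
      ring
    rw [h10] at sc
    have h13 : 0 ≤ ε / 2 * ℓ := by positivity
    linarith only [h9, sc, h13]

end Pool.Agent.L5helper37.PF
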