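import Mathlib
import Pool.Agent.L5helper37.PF.Main
import Pool.Agent.L5helper37.GC.Cor

/-!
# Colourings in which most tuples of a colour share few large primes
-/

set_option autoImplicit false

namespace Pool.Agent.L5helper37.PF

open Finset Pool.Agent.Y359.PE Pool.Agent.L5helper37.GC
open scoped Classical Pointwise

/-- a small factor times a factor with few primes -/
def Good (N D η : ℝ) (g : ℕ) : Prop :=
  ∃ g₁ g₂ : ℕ, g = g₁ * g₂ ∧ (g₁ : ℝ) ≤ N ^ D ∧ (g₂.primeFactors.card : ℝ) ≤ η * Real.log N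

lemma dvd_tg {r : ℕ} {f : Fin r → ℤ} {p : ℕ} (h : ∀ i, fa (f i) p ≠ 0) : p ∣ tg f := by
  unfold tg
  refine Finset.dvd_gcd fun i _ => ?_
  exact Nat.dvd_of_factorization_pos (h i)

/-- the number of large primes of a good number -/
lemma good_count {N D η : ℝ} {g : ℕ} (hg : g ≠ 0) (h : Good N D η g) (hN : 1 ≤ N)
    {m : ℕ} (hm : 2 ≤ m) (hmD : D ≤ η * Real.log m) (Q : Finset ℕ) (hQ : ∀ p ∈ Q, p.Prime)
    (hQm : ∀ p ∈ Q, m ≤ p) :
    ((Q.filter fun p => p ∣ g).card : ℝ) ≤ 2 * (η * Real.log N) := by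
  obtain ⟨g₁, g₂, rfl, h1, h2⟩ := h
  have hg1 : g₁ ≠ 0 := fun h => hg (by rw [h, zero_mul])
  have hg2 : g₂ ≠ 0 := fun h => hg (by rw [h, mul_zero])
  have hlm : 0 < Real.log m := Real.log_pos (by exact_mod_cast (by omega : 1 < m))
  have hlN : 0 ≤ Real.log N := Real.log_nonneg hN
  have h3 : (Q.filter fun p => p ∣ g₁ * g₂) ⊆ (Q.filter fun p => p ∣ g₁) ∪ g₂.primeFactors := by
    intro p hp
    rw [mem_filter] at hp
    have hpp := hQ p hp.1
    rw [mem_union, mem_filter, Nat.mem_primeFactors]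
    rcases hpp.dvd_mul.1 hp.2 with h | h
    · exact Or.inl ⟨hp.1, h⟩
    · exact Or.inr ⟨hpp, h, hg2⟩
  have h4 : ((Q.filter fun p => p ∣ g₁ * g₂).card : ℝ) ≤
      (Q.filter fun p => p ∣ g₁).card + g₂.primeFactors.card := by
    exact_mod_cast (card_le_card h3).trans (card_union_le _ _)
  have h5 : ((Q.filter fun p => p ∣ g₁).card : ℝ) * Real.log m ≤ Real.log g₁ := by
    rw [← nsmul_eq_mul, ← sum_const]
    refine le_trans (sum_le_sum fun p hp => ?_) (sum_fact_le_log g₁ (Q.filter fun p => p ∣ g₁))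
    rw [mem_filter] at hp
    have h6 : 1 ≤ g₁.factorization p := (hQ p hp.1).factorization_pos_of_dvd hg1 hp.2
    have h7 : Real.log m ≤ Real.log p := Real.log_le_log (by exact_mod_cast (by omega : 0 < m))
      (by exact_mod_cast hQm p hp.1)
    have h8 : (1 : ℝ) ≤ g₁.factorization p := by exact_mod_cast h6
    nlinarith
  have h6 : Real.log g₁ ≤ D * Real.log N := by
    rw [← Real.log_rpow (by linarith)]
    exact Real.log_le_log (by exact_mod_cast Nat.pos_of_ne_zero hg1) h1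
  have h7 : ((Q.filter fun p => p ∣ g₁).card : ℝ) ≤ η * Real.log N := by
    refine le_of_mul_le_mul_right ?_ hlm
    have h8 := mul_le_mul_of_nonneg_right hmD hlN
    linarith
  linarith

lemma card_tu (r : ℕ) (C : Finset ℤ) : (tu r C).card = C.card ^ r := by
  unfold tu
  rw [Fintype.card_piFinset, prod_const, card_univ, Fintype.card_fin]

lemma card_tu_filter (r : ℕ) (C : Finset ℤ) (W : ℤ → Prop) [DecidablePred W]
    [DecidablePred fun f : Fin r → ℤ => ∀ i, W (f i)] :
    ((tu r C).filter fun f => ∀ i, W (f i)).card = (C.filter W).card ^ r := by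
  rw [← card_tu]
  congr 1
  unfold tu
  ext f
  rw [mem_filter, Fintype.mem_piFinset, Fintype.mem_piFinset]
  simp only [mem_filter]
  exact ⟨fun h i => ⟨h.1 i, h.2 i⟩, fun h => ⟨fun i => (h i).1, fun i => (h i).2⟩⟩

/-- **The number of the popular primes of a coloured set.** -/
lemma popular_count {ι : Type} {r : ℕ} (hr : 1 ≤ r) {N D η κ σ : ℝ} (A : Finset ℤ)
    (col : ℤ → ι) (hA : A.Nonempty) (h0 : (0 : ℤ) ∉ A) (hN : N = A.card) (hD : 0 ≤ D)
    (hσ : 0 ≤ σ) {m : ℕ} (hm : 2 ≤ m) (hmD : D ≤ η * Real.log m) (Q : Finset ℕ)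
    (hQ : ∀ p ∈ Q, p.Prime) (hQm : ∀ p ∈ Q, m ≤ p)
    (hQσ : ∀ p ∈ Q, σ * N ≤ ((A.filter fun a => fa a p ≠ 0).card : ℝ))
    (hbad : ∑ a ∈ A, (((tu r (cc A col a)).filter fun f => ¬ Good N D η (tg f)).card : ℝ) /
      ((cc A col a).card : ℝ) ^ r ≤ κ * N) :
    (Q.card : ℝ) * (σ ^ r - κ) ≤ 2 * (η * Real.log N) := by
  have hN1 : 1 ≤ N := by
    rw [hN]
    exact_mod_cast card_pos.2 hA
  have hN0 : 0 < N := by linarith
  have hlN : 0 ≤ Real.log N := Real.log_nonneg hN1
  have hccpos : ∀ a ∈ A, (0 : ℝ) < (cc A col a).card := by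
    intro a ha
    exact_mod_cast card_pos.2 ⟨a, mem_cc.2 ⟨ha, rfl⟩⟩
  have hcceq : ∀ a, cc A col a = cl A col a := fun a => rfl
  have hη : 0 ≤ η * Real.log N := by
    have hlm : 0 < Real.log m := Real.log_pos (by exact_mod_cast (by omega : 1 < m))
    have : 0 ≤ η * Real.log m := hD.trans hmD
    have : 0 ≤ η := by
      by_contra h
      push Not at h
      nlinarith
    positivity
  -- the lower bound
  have low : ∀ p ∈ Q, N * σ ^ r ≤ ∑ a ∈ A,
      ((((cc A col a).filter fun x => fa x p ≠ 0).card : ℝ) / (cc A col a).card) ^ r := by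
    intro p hp
    obtain ⟨r', rfl⟩ : ∃ r', r = r' + 1 := ⟨r - 1, by omega⟩
    have e1 : ∑ a ∈ A, (((cc A col a).filter fun x => fa x p ≠ 0).card : ℝ) /
        (cc A col a).card = ((A.filter fun a => fa a p ≠ 0).card : ℝ) := by
      have e2 := avg_cl A col (fun x => if fa x p ≠ 0 then (1 : ℝ) else 0)
      rw [← sum_filter, sum_const, nsmul_eq_mul, mul_one] at e2
      rw [← e2]
      refine sum_congr rfl fun a _ => ?_
      rw [← sum_filter, sum_const, nsmul_eq_mul, mul_one]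
      rfl
    have e2 := pow_sum_div_card_le_sum_pow (s := A)
      (f := fun a => (((cc A col a).filter fun x => fa x p ≠ 0).card : ℝ) / (cc A col a).card)
      (fun a _ => by positivity) r'
    rw [e1] at e2
    refine le_trans ?_ e2
    rw [← hN, le_div_iff₀ (by positivity)]
    have e3 := pow_le_pow_left₀ (by positivity) (hQσ p hp) (r' + 1)
    refine le_trans (le_of_eq ?_) e3
    rw [mul_pow, pow_succ N]
    ring
  have low2 := sum_le_sum low
  rw [sum_const, nsmul_eq_mul, sum_comm] at low2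
  -- the upper bound
  have up : ∀ a ∈ A, ∑ p ∈ Q,
      ((((cc A col a).filter fun x => fa x p ≠ 0).card : ℝ) / (cc A col a).card) ^ r ≤
      2 * (η * Real.log N) + Q.card *
      ((((tu r (cc A col a)).filter fun f => ¬ Good N D η (tg f)).card : ℝ) /
      ((cc A col a).card : ℝ) ^ r) := by
    intro a ha
    have hc := hccpos a ha
    set C := cc A col a with hC
    have hC0 : (0 : ℤ) ∉ C := fun h => h0 (mem_cc.1 h).1
    have e1 : ∀ p ∈ Q, (((C.filter fun x => fa x p ≠ 0).card : ℝ) / C.card) ^ r =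
        (∑ f ∈ tu r C, if ∀ i, fa (f i) p ≠ 0 then (1 : ℝ) else 0) / (C.card : ℝ) ^ r := by
      intro p _
      rw [div_pow, ← sum_filter, sum_const, nsmul_eq_mul, mul_one,
        card_tu_filter r C (fun x => fa x p ≠ 0)]
      push_cast
      rfl
    rw [sum_congr rfl e1, ← sum_div, div_le_iff₀ (by positivity), sum_comm]
    have e2 : ∀ f ∈ tu r C, ∑ p ∈ Q, (if ∀ i, fa (f i) p ≠ 0 then (1 : ℝ) else 0) ≤
        2 * (η * Real.log N) + (if ¬ Good N D η (tg f) then (Q.card : ℝ) else 0) := by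
      intro f hf
      rw [← sum_filter, sum_const, nsmul_eq_mul, mul_one]
      by_cases hg : Good N D η (tg f)
      · rw [if_neg (not_not.2 hg), add_zero]
        have hf0 : ∀ i, f i ≠ 0 := fun i h => hC0 (h ▸ Fintype.mem_piFinset.1 hf i)
        have h1 : (Q.filter fun p => ∀ i, fa (f i) p ≠ 0) ⊆ Q.filter fun p => p ∣ tg f := by
          intro p hp
          rw [mem_filter] at hp ⊢
          exact ⟨hp.1, dvd_tg hp.2⟩
        have h2 := good_count (tg_ne_zero hr hf0) hg hN1 hm hmD Q hQ hQm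
        refine le_trans ?_ h2
        exact_mod_cast card_le_card h1
      · rw [if_pos hg]
        have : ((Q.filter fun p => ∀ i, fa (f i) p ≠ 0).card : ℝ) ≤ Q.card := by
          exact_mod_cast card_filter_le _ _
        linarith
    refine (sum_le_sum e2).trans (le_of_eq ?_)
    rw [sum_add_distrib, sum_const, nsmul_eq_mul, card_tu, ← sum_filter, sum_const, nsmul_eq_mul]
    push_cast
    field_simp
  have up2 := sum_le_sum up
  rw [sum_add_distrib, sum_const, nsmul_eq_mul, ← mul_sum, ← hN] at up2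
  have h1 := mul_le_mul_of_nonneg_left hbad (show (0 : ℝ) ≤ Q.card by positivity)
  have h2 : (Q.card : ℝ) * (σ ^ r - κ) * N ≤ 2 * (η * Real.log N) * N := by
    have h3 := low2.trans up2
    linarith
  exact le_of_mul_le_mul_right h2 hN0

/-- **Theorem 3.** -/
theorem colour (k : ℕ) (hk : 1 ≤ k) (r : ℕ) (hr : 1 ≤ r) (ε : ℝ) (hε : 0 < ε) (hε1 : ε ≤ 1) :
    ∃ κ η : ℝ, 0 < κ ∧ κ ≤ 1 ∧ 0 < η ∧ ∀ D : ℝ, ∃ c : ℝ, 0 < c ∧
      ∀ (ι : Type) (A : Finset ℤ) (col : ℤ → ι), A.Nonempty → (0 : ℤ) ∉ A →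
      ∑ a ∈ A, (((tu r (cc A col a)).filter fun f => ¬ Good A.card D η (tg f)).card : ℝ) /
        ((cc A col a).card : ℝ) ^ r ≤ κ * A.card →
      c * (A.card : ℝ) ^ ((k : ℝ) - ε) ≤ max ((sk k A).card : ℝ) ((pk k A).card : ℝ) := by
  have hkr : (1 : ℝ) ≤ k := by exact_mod_cast hk
  obtain ⟨L, η₂, c₂, hL, hη₂, hc₂, hdich⟩ := dich k hk ε hε hε1
  have hL0 : 0 < L := by linarith
  set σ : ℝ := 1 / L with hσ
  have hσ0 : 0 < σ := by positivity
  have hσ1 : σ ≤ 1 := by
    rw [hσ, div_le_one hL0]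
    exact hL
  have hσr : σ ^ r ≤ 1 := pow_le_one₀ hσ0.le hσ1
  have hσr0 : 0 < σ ^ r := by positivity
  set η : ℝ := η₂ * σ ^ r / 8 with hη
  have hη0 : 0 < η := by positivity
  refine ⟨σ ^ r / 2, η, by positivity, by linarith, hη0, fun D => ?_⟩
  set D' : ℝ := max D 0 with hD'
  have hD'0 : 0 ≤ D' := le_max_right _ _
  set m : ℕ := ⌈Real.exp (D' / η)⌉₊ + 2 with hm
  have hm2 : 2 ≤ m := by omega
  have hmD : D' ≤ η * Real.log m := by
    have h1 : Real.exp (D' / η) ≤ m := by
      rw [hm]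
      push_cast
      have := Nat.le_ceil (Real.exp (D' / η))
      linarith
    have h2 := Real.log_le_log (Real.exp_pos _) h1
    rw [Real.log_exp, div_le_iff₀ hη0] at h2
    linarith
  -- large sets
  have hlim : Filter.Tendsto (fun n : ℕ => Real.log (n : ℝ)) Filter.atTop Filter.atTop :=
    Real.tendsto_log_atTop.comp tendsto_natCast_atTop_atTop
  obtain ⟨N₀, hN₀⟩ := (hlim.eventually
    (Filter.eventually_ge_atTop (2 * m / η₂))).exists_forall_of_atTop
  refine ⟨min c₂ (1 / ((N₀ : ℝ) + 1) ^ (k : ℝ)), by positivity, ?_⟩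
  intro ι A col hA h0 hbad
  have hN1 : (1 : ℝ) ≤ A.card := by exact_mod_cast card_pos.2 hA
  have hN0 : (0 : ℝ) < A.card := by linarith
  rcases lt_or_ge A.card N₀ with hsmall | hlarge
  · have hPk : (1 : ℝ) ≤ (pk k A).card := by exact_mod_cast card_pos.2 (pk_nonempty hA)
    have h1 : (A.card : ℝ) ^ ((k : ℝ) - ε) ≤ ((N₀ : ℝ) + 1) ^ (k : ℝ) := by
      have h2 : (A.card : ℝ) ≤ N₀ := by exact_mod_cast hsmall.le
      exact (Real.rpow_le_rpow hN0.le (by linarith) (by linarith)).trans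
        (Real.rpow_le_rpow_of_exponent_le (by linarith) (by linarith))
    have h2 : (0 : ℝ) < ((N₀ : ℝ) + 1) ^ (k : ℝ) := by positivity
    calc min c₂ (1 / ((N₀ : ℝ) + 1) ^ (k : ℝ)) * (A.card : ℝ) ^ ((k : ℝ) - ε)
        ≤ (1 / ((N₀ : ℝ) + 1) ^ (k : ℝ)) * ((N₀ : ℝ) + 1) ^ (k : ℝ) :=
          mul_le_mul (min_le_right _ _) h1 (by positivity) (by positivity)
      _ = 1 := by field_simp
      _ ≤ _ := hPk.trans (le_max_right _ _)
  · have hℓ := hN₀ A.card hlarge
    set P := (pr A).filter fun p =>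
      (A.card : ℝ) < L * ((A.filter fun a => fa a p ≠ 0).card : ℝ) with hP
    have hPp : ∀ p ∈ P, p.Prime := fun p hp => prime_of_mem_pr (mem_filter.1 hp).1
    set Q := P.filter fun p => m ≤ p with hQ
    have hcount := popular_count (r := r) hr (N := A.card) (D := D') (η := η)
      (κ := σ ^ r / 2) (σ := σ) A col hA h0 rfl hD'0 hσ0.le hm2 hmD Q
      (fun p hp => hPp p (mem_filter.1 hp).1) (fun p hp => (mem_filter.1 hp).2) (fun p hp => by
        have h1 := (mem_filter.1 (mem_filter.1 hp).1).2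
        rw [hσ, one_div, inv_mul_le_iff₀ hL0]
        exact h1.le) (by
      refine le_trans (sum_le_sum fun a ha => ?_) hbad
      refine div_le_div_of_nonneg_right ?_ (by positivity)
      have : ((tu r (cc A col a)).filter fun f => ¬ Good (A.card : ℝ) D' η (tg f)) ⊆
          ((tu r (cc A col a)).filter fun f => ¬ Good (A.card : ℝ) D η (tg f)) := by
        intro f hf
        rw [mem_filter] at hf ⊢
        refine ⟨hf.1, fun hg => hf.2 ?_⟩
        obtain ⟨g₁, g₂, h1, h2, h3⟩ := hg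
        exact ⟨g₁, g₂, h1, h2.trans (Real.rpow_le_rpow_of_exponent_le hN1 (le_max_left _ _)), h3⟩
      exact_mod_cast card_le_card this)
    have hQc : (Q.card : ℝ) ≤ η₂ / 2 * Real.log A.card := by
      have h1 : (Q.card : ℝ) * (σ ^ r - σ ^ r / 2) = Q.card * (σ ^ r / 2) := by ring
      rw [h1] at hcount
      have h2 : 2 * (η * Real.log A.card) = η₂ / 2 * Real.log A.card * (σ ^ r / 2) := by
        rw [hη]
        ring
      rw [h2] at hcount
      exact le_of_mul_le_mul_right hcount (by positivity)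
    have hPc : (P.card : ℝ) ≤ η₂ * Real.log A.card := by
      have h1 : P ⊆ Q ∪ range m := by
        intro p hp
        rw [mem_union, hQ, mem_filter, mem_range]
        by_cases h : m ≤ p
        · exact Or.inl ⟨hp, h⟩
        · exact Or.inr (not_le.1 h)
      have h2 : (P.card : ℝ) ≤ Q.card + m := by
        have := (card_le_card h1).trans (card_union_le _ _)
        rw [card_range] at this
        exact_mod_cast this
      rw [div_le_iff₀ hη₂] at hℓ
      linarith
    have main := hdich A A P subset_rfl hA hPp hPc (fun p hpp hpP => by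
      refine ⟨0, ?_⟩
      have h1 : (A.filter fun b => b ≠ 0 ∧ fa b p ≠ 0) ⊆ A.filter fun a => fa a p ≠ 0 := by
        intro b hb
        rw [mem_filter] at hb ⊢
        exact ⟨hb.1, hb.2.2⟩
      have h2 : ((A.filter fun b => b ≠ 0 ∧ fa b p ≠ 0).card : ℝ) ≤
          ((A.filter fun a => fa a p ≠ 0).card : ℝ) := by exact_mod_cast card_le_card h1
      have h3 := mul_le_mul_of_nonneg_left h2 hL0.le
      refine h3.trans ?_
      by_cases hpA : p ∈ pr A
      · by_contra hcon
        push Not at hcon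
        exact hpP (mem_filter.2 ⟨hpA, hcon⟩)
      · have : (A.filter fun a => fa a p ≠ 0) = ∅ := by
          rw [filter_eq_empty_iff]
          intro a ha
          rw [not_not]
          exact fa_eq_zero ha hpA
        rw [this, card_empty]
        simp)
    refine le_trans ?_ main
    exact mul_le_mul_of_nonneg_right (min_le_left _ _) (by positivity)

/-- **Theorem 4.** Few colours. -/
theorem few_colours (k : ℕ) (hk : 1 ≤ k) (r : ℕ) (hr : 1 ≤ r) (ε : ℝ) (hε : 0 < ε)
    (hε1 : ε ≤ 1) :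
    ∃ κ η : ℝ, 0 < κ ∧ 0 < η ∧ ∀ D : ℝ, ∃ c : ℝ, 0 < c ∧
      ∀ (ι : Type) (A : Finset ℤ) (col : ℤ → ι), A.Nonempty → (0 : ℤ) ∉ A →
      ((A.image col).card : ℝ) ≤ κ * A.card →
      (∀ S ⊆ A, S.card = r → (∀ a ∈ S, ∀ b ∈ S, col a = col b) →
        Good A.card D η (S.gcd fun a => a.natAbs)) →
      c * (A.card : ℝ) ^ ((k : ℝ) - ε) ≤ max ((sk k A).card : ℝ) ((pk k A).card : ℝ) := by
  obtain ⟨κ, η, hκ, hκ1, hη, h⟩ := colour k hk r hr ε hε hε1
  have hr0 : (1 : ℝ) ≤ (r : ℝ) ^ 2 := by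
    have : (1 : ℝ) ≤ r := by exact_mod_cast hr
    exact one_le_pow₀ this
  refine ⟨κ / (r : ℝ) ^ 2, η, by positivity, hη, fun D => ?_⟩
  obtain ⟨c, hc, h⟩ := h D
  refine ⟨c, hc, fun ι A col hA h0 hcol hgcd => h ι A col hA h0 ?_⟩
  have h1 : ∀ a ∈ A, (((tu r (cc A col a)).filter fun f => ¬ Good A.card D η (tg f)).card : ℝ) /
      ((cc A col a).card : ℝ) ^ r ≤ (r : ℝ) ^ 2 * (1 / fc A col a) := by
    intro a ha
    have hn : 0 < (cc A col a).card := card_pos.2 ⟨a, mem_cc.2 ⟨ha, rfl⟩⟩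
    have hnr : (0 : ℝ) < (cc A col a).card := by exact_mod_cast hn
    have h2 : ((tu r (cc A col a)).filter fun f => ¬ Good A.card D η (tg f)).card ≤
        r ^ 2 * (cc A col a).card ^ (r - 1) := by
      refine (card_le_card ?_).trans (card_not_inj r _)
      intro f hf
      rw [mem_filter] at hf ⊢
      refine ⟨hf.1, fun hinj => hf.2 ?_⟩
      have hf1 : ∀ i, f i ∈ cc A col a := fun i => Fintype.mem_piFinset.1 hf.1 i
      have h3 := hgcd (univ.image f) (by
        intro x hx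
        obtain ⟨i, -, rfl⟩ := mem_image.1 hx
        exact (mem_cc.1 (hf1 i)).1) (by
        rw [card_image_of_injective _ hinj, card_univ, Fintype.card_fin]) (by
        intro x hx y hy
        obtain ⟨i, -, rfl⟩ := mem_image.1 hx
        obtain ⟨j, -, rfl⟩ := mem_image.1 hy
        rw [(mem_cc.1 (hf1 i)).2, (mem_cc.1 (hf1 j)).2])
      have h4 : ((univ.image f).gcd fun a => a.natAbs) = tg f := by
        unfold tg
        rw [Finset.gcd_image]
        rfl
      rwa [h4] at h3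
    have h3 : (((tu r (cc A col a)).filter fun f => ¬ Good A.card D η (tg f)).card : ℝ) ≤
        (r : ℝ) ^ 2 * ((cc A col a).card : ℝ) ^ (r - 1) := by exact_mod_cast h2
    rw [div_le_iff₀ (by positivity)]
    refine h3.trans (le_of_eq ?_)
    have e1 : ((fc A col a : ℕ) : ℝ) = (cc A col a).card := rfl
    rw [e1]
    obtain ⟨r', rfl⟩ : ∃ r', r = r' + 1 := ⟨r - 1, by omega⟩
    rw [Nat.add_sub_cancel, pow_succ ((cc A col a).card : ℝ)]
    field_simp
  refine (sum_le_sum h1).trans ?_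
  rw [← mul_sum]
  have h2 := sum_inv_fc A col
  have h3 := mul_le_mul_of_nonneg_left (h2.trans hcol) (show 0 ≤ (r : ℝ) ^ 2 by positivity)
  refine h3.trans (le_of_eq ?_)
  field_simp

end Pool.Agent.L5helper37.PF
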